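import Pool.Agent.ConeMax.Ident

set_option autoImplicit false
set_option linter.style.haveILetI false

open MeasureTheory Filter Topology Set

namespace Pool.Agent.ConeMax

variable {d : ℕ}

/-- weighted integral -/
noncomputable def II (d : ℕ) (k : ℝ) (R : ℝ → ℝ → ℝ) : ℝ :=
  ∫ z : ℝ × EuclideanSpace ℝ (Fin d), rho k z.1 (‖z.2‖ ^ 2) * R z.1 (‖z.2‖ ^ 2)

theorem II_int {k : ℝ} (hk : (d:ℝ) + 1 < 2 * k) (R : ℝ → ℝ → ℝ)
    (hm : Measurable (fun z : ℝ × EuclideanSpace ℝ (Fin d) => R z.1 (‖z.2‖ ^ 2))) (c : ℝ)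
    (hb : ∀ t q, 0 ≤ q → |R t q| ≤ c * √(wq t q)) :
    Integrable (fun z : ℝ × EuclideanSpace ℝ (Fin d) =>
      rho k z.1 (‖z.2‖ ^ 2) * R z.1 (‖z.2‖ ^ 2)) :=
  int_of_bound hk (fun z => R z.1 (‖z.2‖ ^ 2)) hm c (fun z => hb z.1 (‖z.2‖ ^ 2) (by positivity))

/-- combine the two integrations by parts -/
theorem div_zero {k : ℝ} (hk : (d:ℝ) + 1 < 2 * k) (V V' G G' : ℝ → ℝ → ℝ)
    (hV : ∀ t q, 0 ≤ q → HasDerivAt (fun t => V t q) (V' t q) t)
    (hG : ∀ t q, 0 ≤ q → HasDerivAt (fun q => G t q) (G' t q) q)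
    (mV : Measurable (fun z : ℝ × EuclideanSpace ℝ (Fin d) => V z.1 (‖z.2‖ ^ 2)))
    (mV' : Measurable (fun z : ℝ × EuclideanSpace ℝ (Fin d) => V' z.1 (‖z.2‖ ^ 2)))
    (mG : Measurable (fun z : ℝ × EuclideanSpace ℝ (Fin d) => G z.1 (‖z.2‖ ^ 2)))
    (mG' : Measurable (fun z : ℝ × EuclideanSpace ℝ (Fin d) => G' z.1 (‖z.2‖ ^ 2)))
    (c : ℝ)
    (bV : ∀ t q, 0 ≤ q → |V t q| ≤ c * √(wq t q))
    (bV' : ∀ t q, 0 ≤ q → |V' t q + V t q * (-k * (4 * t * (1 + t ^ 2 - q)) / Nq t q)|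
      ≤ c * √(wq t q))
    (bG : ∀ t q y, 0 ≤ q → y ^ 2 ≤ q → |y * G t q| ≤ c * √(wq t q))
    (bG' : ∀ t q y, 0 ≤ q → y ^ 2 ≤ q →
      |G t q + 2 * y ^ 2 * (G' t q + G t q * (-k * (2 * (1 - t ^ 2 + q)) / Nq t q))|
      ≤ c * √(wq t q)) :
    II d k (fun t q => V' t q + V t q * (-k * (4 * t * (1 + t ^ 2 - q)) / Nq t q) +
      d * G t q + 2 * q * (G' t q + G t q * (-k * (2 * (1 - t ^ 2 + q)) / Nq t q))) = 0 := by
  have mN : Measurable (fun z : ℝ × EuclideanSpace ℝ (Fin d) => Nq z.1 (‖z.2‖ ^ 2)) := by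
    unfold Nq; fun_prop
  have mA : Measurable (fun z : ℝ × EuclideanSpace ℝ (Fin d) =>
      (-k * (4 * z.1 * (1 + z.1 ^ 2 - ‖z.2‖ ^ 2)) / Nq z.1 (‖z.2‖ ^ 2))) := by
    unfold Nq; fun_prop
  have mB : Measurable (fun z : ℝ × EuclideanSpace ℝ (Fin d) =>
      (-k * (2 * (1 - z.1 ^ 2 + ‖z.2‖ ^ 2)) / Nq z.1 (‖z.2‖ ^ 2))) := by
    unfold Nq; fun_prop
  have mc : ∀ j : Fin d, Measurable (fun z : ℝ × EuclideanSpace ℝ (Fin d) => z.2 j) := by
    intro j; fun_prop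
  have iV : Integrable (fun z : ℝ × EuclideanSpace ℝ (Fin d) =>
      (fun t q => rho k t q * V t q) z.1 (‖z.2‖ ^ 2)) := II_int hk V mV c bV
  have iV' : Integrable (fun z : ℝ × EuclideanSpace ℝ (Fin d) =>
      (fun t q => rho k t q * (V' t q + V t q * (-k * (4 * t * (1 + t ^ 2 - q)) / Nq t q)))
        z.1 (‖z.2‖ ^ 2)) :=
    II_int hk (fun t q => V' t q + V t q * (-k * (4 * t * (1 + t ^ 2 - q)) / Nq t q))
      (mV'.add (mV.mul mA)) c bV'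
  have h1 := ibp_t (d := d) (fun t q => rho k t q * V t q)
    (fun t q => rho k t q * (V' t q + V t q * (-k * (4 * t * (1 + t ^ 2 - q)) / Nq t q)))
    (fun t q hq => by
      have h := (hasDerivAt_rho_t k (t := t) hq).mul (hV t q hq)
      convert! h using 1
      ring) iV iV'
  have iG : ∀ j : Fin d, Integrable (fun z : ℝ × EuclideanSpace ℝ (Fin d) =>
      z.2 j * (fun t q => rho k t q * G t q) z.1 (‖z.2‖ ^ 2)) := by
    intro j
    refine (int_of_bound hk (fun z => z.2 j * G z.1 (‖z.2‖ ^ 2)) ((mc j).mul mG) c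
      (fun z => bG z.1 (‖z.2‖ ^ 2) (z.2 j) (by positivity) (coord_sq_le z.2 j))).congr ?_
    refine Eventually.of_forall fun z => ?_
    simp only
    ring
  have iG' : ∀ j : Fin d, Integrable (fun z : ℝ × EuclideanSpace ℝ (Fin d) =>
      (fun t q => rho k t q * G t q) z.1 (‖z.2‖ ^ 2) + 2 * (z.2 j) ^ 2 *
      (fun t q => rho k t q * (G' t q + G t q * (-k * (2 * (1 - t ^ 2 + q)) / Nq t q)))
        z.1 (‖z.2‖ ^ 2)) := by
    intro j
    refine (int_of_bound hk (fun z => G z.1 (‖z.2‖ ^ 2) + 2 * (z.2 j) ^ 2 *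
      (G' z.1 (‖z.2‖ ^ 2) + G z.1 (‖z.2‖ ^ 2) *
        (-k * (2 * (1 - z.1 ^ 2 + ‖z.2‖ ^ 2)) / Nq z.1 (‖z.2‖ ^ 2))))
      (mG.add ((((mc j).pow_const 2).const_mul 2).mul (mG'.add (mG.mul mB)))) c
      (fun z => bG' z.1 (‖z.2‖ ^ 2) (z.2 j) (by positivity) (coord_sq_le z.2 j))).congr ?_
    refine Eventually.of_forall fun z => ?_
    simp only
    ring
  have h2 := ibp_x (d := d) (fun t q => rho k t q * G t q)
    (fun t q => rho k t q * (G' t q + G t q * (-k * (2 * (1 - t ^ 2 + q)) / Nq t q)))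
    (fun t q hq => by
      have h := (hasDerivAt_rho_q k (t := t) hq).mul (hG t q hq)
      convert! h using 1
      ring) iG iG'
  have iX : Integrable (fun z : ℝ × EuclideanSpace ℝ (Fin d) =>
      (d * (rho k z.1 (‖z.2‖ ^ 2) * G z.1 (‖z.2‖ ^ 2)) + 2 * ‖z.2‖ ^ 2 *
      (rho k z.1 (‖z.2‖ ^ 2) * (G' z.1 (‖z.2‖ ^ 2) + G z.1 (‖z.2‖ ^ 2) *
        (-k * (2 * (1 - z.1 ^ 2 + ‖z.2‖ ^ 2)) / Nq z.1 (‖z.2‖ ^ 2)))))) := by
    have := integrable_finsetSum Finset.univ (fun j (_ : j ∈ Finset.univ) => iG' j)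
    refine this.congr (Eventually.of_forall fun z => ?_)
    simp only
    rw [Finset.sum_add_distrib, Finset.sum_const, Finset.card_univ, Fintype.card_fin,
      nsmul_eq_mul, ← Finset.sum_mul, ← Finset.mul_sum, EuclideanSpace.real_norm_sq_eq]
  unfold II
  have h3 : ∫ z : ℝ × EuclideanSpace ℝ (Fin d),
      ((rho k z.1 (‖z.2‖ ^ 2) * (V' z.1 (‖z.2‖ ^ 2) + V z.1 (‖z.2‖ ^ 2) *
        (-k * (4 * z.1 * (1 + z.1 ^ 2 - ‖z.2‖ ^ 2)) / Nq z.1 (‖z.2‖ ^ 2)))) +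
      (d * (rho k z.1 (‖z.2‖ ^ 2) * G z.1 (‖z.2‖ ^ 2)) + 2 * ‖z.2‖ ^ 2 *
      (rho k z.1 (‖z.2‖ ^ 2) * (G' z.1 (‖z.2‖ ^ 2) + G z.1 (‖z.2‖ ^ 2) *
        (-k * (2 * (1 - z.1 ^ 2 + ‖z.2‖ ^ 2)) / Nq z.1 (‖z.2‖ ^ 2)))))) = 0 := by
    rw [integral_add iV' iX]
    rw [h1, h2, add_zero]
  rw [← h3]
  refine integral_congr_ae (Eventually.of_forall fun z => ?_)
  simp only
  ring

theorem abs_add_le3 {a b s t' : ℝ} (ha : |a| ≤ s) (hb : |b| ≤ t') : |a + b| ≤ s + t' :=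
  (abs_add_le a b).trans (add_le_add ha hb)

/-- Euler identity -/
theorem identE {k : ℝ} (hk : (d:ℝ) + 1 < 2 * k) :
    ((d:ℝ) + 1 - 4 * k) * II d k (fun _ _ => 1) + 4 * k * II d k (fun t q => wq t q / Nq t q)
      = 0 := by
  have h0d : (0:ℝ) ≤ d := Nat.cast_nonneg d
  have hk0 : 0 < k := by linarith
  have h := div_zero hk (fun t _ => t) (fun _ _ => 1) (fun _ _ => 1) (fun _ _ => 0)
    (fun t q _ => hasDerivAt_id t) (fun t q _ => hasDerivAt_const q 1)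
    (by fun_prop) (by fun_prop) (by fun_prop) (by fun_prop) (1 + 4 * k)
    (fun t q hq => by
      have h1 := t_le_sw (t := t) hq
      have h2 := Real.sqrt_nonneg (wq t q)
      nlinarith)
    (fun t q hq => by
      have e : (1:ℝ) + t * (-k * (4 * t * (1 + t ^ 2 - q)) / Nq t q) =
        1 + (-(4 * k)) * (t * (t * (1 + t ^ 2 - q) / Nq t q)) := by ring
      rw [e]
      have h1 := mul_le_of_abs (t_le_sw (t := t) hq) (u1_le (t := t) hq)
      have h2 := one_le_sw (t := t) hq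
      refine (abs_add_le _ _).trans ?_
      rw [abs_mul, abs_one, abs_neg, abs_of_pos (by linarith : 0 < 4 * k)]
      nlinarith)
    (fun t q y hq hy => by
      have h1 := y_le_sw (t := t) hy
      have h2 := Real.sqrt_nonneg (wq t q)
      rw [mul_one]
      nlinarith)
    (fun t q y hq hy => by
      have e : (1:ℝ) + 2 * y ^ 2 * (0 + 1 * (-k * (2 * (1 - t ^ 2 + q)) / Nq t q)) =
        1 + (-(4 * k)) * (y * (y * (1 - t ^ 2 + q) / Nq t q)) := by ring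
      rw [e]
      have h1 := mul_le_of_abs (y_le_sw (t := t) hy) (u4_le (t := t) hq hy)
      have h2 := one_le_sw (t := t) hq
      refine (abs_add_le _ _).trans ?_
      rw [abs_mul, abs_one, abs_neg, abs_of_pos (by linarith : 0 < 4 * k)]
      nlinarith)
  have i1 : Integrable (fun z : ℝ × EuclideanSpace ℝ (Fin d) =>
      rho k z.1 (‖z.2‖ ^ 2) * (fun _ _ => (1:ℝ)) z.1 (‖z.2‖ ^ 2)) :=
    II_int hk (fun _ _ => 1) (by fun_prop) 1 (fun t q hq => by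
      rw [abs_one, one_mul]; exact one_le_sw hq)
  have i2 : Integrable (fun z : ℝ × EuclideanSpace ℝ (Fin d) =>
      rho k z.1 (‖z.2‖ ^ 2) * (fun t q => wq t q / Nq t q) z.1 (‖z.2‖ ^ 2)) :=
    II_int hk (fun t q => wq t q / Nq t q) (by unfold wq Nq; fun_prop) 1 (fun t q hq => by
      rw [one_mul]; exact (u2_le hq).trans (one_le_sw hq))
  unfold II at h ⊢
  rw [← integral_const_mul, ← integral_const_mul,
    ← integral_add (i1.const_mul _) (i2.const_mul _), ← h]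
  refine integral_congr_ae (Eventually.of_forall fun z => ?_)
  simp only
  have hN := (Nq_pos (t := z.1) (q := ‖z.2‖ ^ 2) (by positivity)).ne'
  have key : z.1 ^ 2 * (1 + z.1 ^ 2 - ‖z.2‖ ^ 2) + ‖z.2‖ ^ 2 * (1 - z.1 ^ 2 + ‖z.2‖ ^ 2) =
      Nq z.1 (‖z.2‖ ^ 2) - wq z.1 (‖z.2‖ ^ 2) := by
    unfold Nq wq; ring
  have e : (1 + z.1 * (-k * (4 * z.1 * (1 + z.1 ^ 2 - ‖z.2‖ ^ 2)) / Nq z.1 (‖z.2‖ ^ 2)) + d * 1 +
      2 * ‖z.2‖ ^ 2 * (0 + 1 * (-k * (2 * (1 - z.1 ^ 2 + ‖z.2‖ ^ 2)) / Nq z.1 (‖z.2‖ ^ 2)))) =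
      ((d:ℝ) + 1 - 4 * k) + 4 * k * (wq z.1 (‖z.2‖ ^ 2) / Nq z.1 (‖z.2‖ ^ 2)) := by
    field_simp
    linear_combination (-(4 * k)) * key
  linear_combination (-rho k z.1 (‖z.2‖ ^ 2)) * e

/-- conformal identity -/
theorem identK {k : ℝ} (hk : (d:ℝ) + 1 < 2 * k) :
    II d k (fun t q => wq t q / Nq t q) +
      (2 * d - 2 - 4 * k) * II d k (fun t q => t ^ 2 / Nq t q) = 0 := by
  have h0d : (0:ℝ) ≤ d := Nat.cast_nonneg d
  have hk0 : 0 < k := by linarith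
  have h := div_zero hk (fun t q => t * wq t q / Nq t q)
    (fun t q => (wq t q + 2 * t ^ 2) / Nq t q -
      t * wq t q * (4 * t * (1 + t ^ 2 - q)) / Nq t q ^ 2)
    (fun t q => 2 * t ^ 2 / Nq t q)
    (fun t q => - (2 * t ^ 2 * (2 * (1 - t ^ 2 + q)) / Nq t q ^ 2))
    (fun t q hq => by
      have hN := (Nq_pos (t := t) hq).ne'
      have h1 : HasDerivAt (fun t => t * wq t q) (wq t q + 2 * t ^ 2) t := by
        unfold wq
        have h2 := (hasDerivAt_id t).mul (((hasDerivAt_pow 2 t).const_add 1).add_const q)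
        convert! h2 using 1
        simp
        ring
      have h3 := h1.div (hasDerivAt_Nq_t t q) hN
      convert! h3 using 1
      field_simp)
    (fun t q hq => by
      have hN := (Nq_pos (t := t) hq).ne'
      have h3 := (hasDerivAt_const q (2 * t ^ 2)).div (hasDerivAt_Nq_q t q) hN
      convert! h3 using 1
      field_simp
      ring)
    (by unfold wq Nq; fun_prop) (by unfold wq Nq; fun_prop) (by unfold Nq; fun_prop)
    (by unfold Nq; fun_prop) (3 + 8 * (1 + k))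
    (fun t q hq => by
      have e : t * wq t q / Nq t q = t * (wq t q / Nq t q) := by ring
      rw [e]
      have h1 := mul_le_of_abs (t_le_sw (t := t) hq) (u2_le (t := t) hq)
      have h2 := Real.sqrt_nonneg (wq t q)
      nlinarith)
    (fun t q hq => by
      have hN := (Nq_pos (t := t) hq).ne'
      have e : (wq t q + 2 * t ^ 2) / Nq t q -
          t * wq t q * (4 * t * (1 + t ^ 2 - q)) / Nq t q ^ 2 +
          t * wq t q / Nq t q * (-k * (4 * t * (1 + t ^ 2 - q)) / Nq t q) =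
        (wq t q / Nq t q + 2 * (t ^ 2 / Nq t q)) +
          (-(4 * (1 + k))) * ((t * (t * (1 + t ^ 2 - q) / Nq t q)) * (wq t q / Nq t q)) := by
        field_simp
        ring
      rw [e]
      have h1 := mul_le_of_abs (mul_le_of_abs (t_le_sw (t := t) hq) (u1_le (t := t) hq))
        (u2_le (t := t) hq)
      have h2 := one_le_sw (t := t) hq
      have h3 := u2_le (t := t) hq
      have h4 := u3_le (t := t) hq
      refine (abs_add_le _ _).trans ?_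
      rw [abs_mul (-(4 * (1 + k))), abs_neg, abs_of_pos (by linarith : 0 < 4 * (1 + k))]
      have h5 : |wq t q / Nq t q + 2 * (t ^ 2 / Nq t q)| ≤ 3 := by
        refine (abs_add_le _ _).trans ?_
        rw [abs_mul, abs_two]
        linarith
      nlinarith [abs_nonneg (t * (t * (1 + t ^ 2 - q) / Nq t q) * (wq t q / Nq t q))])
    (fun t q y hq hy => by
      have e : y * (2 * t ^ 2 / Nq t q) = 2 * (y * (t ^ 2 / Nq t q)) := by ring
      rw [e, abs_mul, abs_two]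
      have h1 := mul_le_of_abs (y_le_sw (t := t) hy) (u3_le (t := t) hq)
      have h2 := Real.sqrt_nonneg (wq t q)
      nlinarith)
    (fun t q y hq hy => by
      have hN := (Nq_pos (t := t) hq).ne'
      have e : 2 * t ^ 2 / Nq t q + 2 * y ^ 2 * (-(2 * t ^ 2 * (2 * (1 - t ^ 2 + q)) / Nq t q ^ 2) +
          2 * t ^ 2 / Nq t q * (-k * (2 * (1 - t ^ 2 + q)) / Nq t q)) =
        2 * (t ^ 2 / Nq t q) +
          (-(8 * (1 + k))) * ((y * (y * (1 - t ^ 2 + q) / Nq t q)) * (t ^ 2 / Nq t q)) := by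
        field_simp
        ring
      rw [e]
      have h1 := mul_le_of_abs (mul_le_of_abs (y_le_sw (t := t) hy) (u4_le (t := t) hq hy))
        (u3_le (t := t) hq)
      have h2 := one_le_sw (t := t) hq
      have h4 := u3_le (t := t) hq
      refine (abs_add_le _ _).trans ?_
      rw [abs_mul (-(8 * (1 + k))), abs_neg, abs_of_pos (by linarith : 0 < 8 * (1 + k)),
        abs_mul 2, abs_two]
      nlinarith [abs_nonneg (y * (y * (1 - t ^ 2 + q) / Nq t q) * (t ^ 2 / Nq t q))])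
  have i1 : Integrable (fun z : ℝ × EuclideanSpace ℝ (Fin d) =>
      rho k z.1 (‖z.2‖ ^ 2) * (fun t q => wq t q / Nq t q) z.1 (‖z.2‖ ^ 2)) :=
    II_int hk (fun t q => wq t q / Nq t q) (by unfold wq Nq; fun_prop) 1 (fun t q hq => by
      rw [one_mul]; exact (u2_le hq).trans (one_le_sw hq))
  have i2 : Integrable (fun z : ℝ × EuclideanSpace ℝ (Fin d) =>
      rho k z.1 (‖z.2‖ ^ 2) * (fun t q => t ^ 2 / Nq t q) z.1 (‖z.2‖ ^ 2)) :=
    II_int hk (fun t q => t ^ 2 / Nq t q) (by unfold Nq; fun_prop) 1 (fun t q hq => by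
      rw [one_mul]; exact (u3_le hq).trans (one_le_sw hq))
  unfold II at h ⊢
  rw [← integral_const_mul, ← integral_add i1 (i2.const_mul _), ← h]
  refine integral_congr_ae (Eventually.of_forall fun z => ?_)
  simp only
  have hN := (Nq_pos (t := z.1) (q := ‖z.2‖ ^ 2) (by positivity)).ne'
  have key : wq z.1 (‖z.2‖ ^ 2) * (1 + z.1 ^ 2 - ‖z.2‖ ^ 2) +
      2 * ‖z.2‖ ^ 2 * (1 - z.1 ^ 2 + ‖z.2‖ ^ 2) = Nq z.1 (‖z.2‖ ^ 2) := by
    unfold Nq wq; ring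
  have e : ((wq z.1 (‖z.2‖ ^ 2) + 2 * z.1 ^ 2) / Nq z.1 (‖z.2‖ ^ 2) -
      z.1 * wq z.1 (‖z.2‖ ^ 2) * (4 * z.1 * (1 + z.1 ^ 2 - ‖z.2‖ ^ 2)) / Nq z.1 (‖z.2‖ ^ 2) ^ 2 +
      z.1 * wq z.1 (‖z.2‖ ^ 2) / Nq z.1 (‖z.2‖ ^ 2) *
        (-k * (4 * z.1 * (1 + z.1 ^ 2 - ‖z.2‖ ^ 2)) / Nq z.1 (‖z.2‖ ^ 2)) +
      d * (2 * z.1 ^ 2 / Nq z.1 (‖z.2‖ ^ 2)) +
      2 * ‖z.2‖ ^ 2 * (-(2 * z.1 ^ 2 * (2 * (1 - z.1 ^ 2 + ‖z.2‖ ^ 2)) / Nq z.1 (‖z.2‖ ^ 2) ^ 2) +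
        2 * z.1 ^ 2 / Nq z.1 (‖z.2‖ ^ 2) *
          (-k * (2 * (1 - z.1 ^ 2 + ‖z.2‖ ^ 2)) / Nq z.1 (‖z.2‖ ^ 2)))) =
      wq z.1 (‖z.2‖ ^ 2) / Nq z.1 (‖z.2‖ ^ 2) +
        (2 * d - 2 - 4 * k) * (z.1 ^ 2 / Nq z.1 (‖z.2‖ ^ 2)) := by
    field_simp
    linear_combination (-(4 * (1 + k) * z.1 ^ 2)) * key
  linear_combination (-rho k z.1 (‖z.2‖ ^ 2)) * e

/-- third identity -/
theorem identD {k : ℝ} (hk : (d:ℝ) + 1 < 2 * k) :
    4 * (1 + k) * II d k (fun t q => (t ^ 2 * (1 + t ^ 2 - q) ^ 2 +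
        q * (1 - t ^ 2 + q) ^ 2) / Nq t q ^ 2) =
      (1 + d) * II d k (fun t q => wq t q / Nq t q) +
        (2 - 2 * d) * II d k (fun t q => t ^ 2 / Nq t q) := by
  have h0d : (0:ℝ) ≤ d := Nat.cast_nonneg d
  have hk0 : 0 < k := by linarith
  have h := div_zero hk (fun t q => -(t * (1 + t ^ 2 - q) / Nq t q))
    (fun t q => -((1 + 3 * t ^ 2 - q) / Nq t q) +
      t * (1 + t ^ 2 - q) * (4 * t * (1 + t ^ 2 - q)) / Nq t q ^ 2)
    (fun t q => -((1 - t ^ 2 + q) / Nq t q))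
    (fun t q => -(1 / Nq t q) + (1 - t ^ 2 + q) * (2 * (1 - t ^ 2 + q)) / Nq t q ^ 2)
    (fun t q hq => by
      have hN := (Nq_pos (t := t) hq).ne'
      have h1 : HasDerivAt (fun t => t * (1 + t ^ 2 - q)) (1 + 3 * t ^ 2 - q) t := by
        have h2 := (hasDerivAt_id t).mul (((hasDerivAt_pow 2 t).const_add 1).sub_const q)
        convert! h2 using 1
        simp
        ring
      have h3 := (h1.div (hasDerivAt_Nq_t t q) hN).neg
      convert! h3 using 1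
      field_simp
      ring)
    (fun t q hq => by
      have hN := (Nq_pos (t := t) hq).ne'
      have h3 := (((hasDerivAt_id q).const_add (1 - t ^ 2)).div (hasDerivAt_Nq_q t q) hN).neg
      convert! h3 using 1
      simp only [id_eq]
      field_simp
      ring)
    (by unfold Nq; fun_prop) (by unfold Nq; fun_prop) (by unfold Nq; fun_prop)
    (by unfold Nq; fun_prop) (6 + 8 * (1 + k))
    (fun t q hq => by
      rw [abs_neg]
      have h1 := u1_le (t := t) hq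
      have h2 := one_le_sw (t := t) hq
      nlinarith)
    (fun t q hq => by
      have hN := (Nq_pos (t := t) hq).ne'
      have e : -((1 + 3 * t ^ 2 - q) / Nq t q) +
          t * (1 + t ^ 2 - q) * (4 * t * (1 + t ^ 2 - q)) / Nq t q ^ 2 +
          -(t * (1 + t ^ 2 - q) / Nq t q) * (-k * (4 * t * (1 + t ^ 2 - q)) / Nq t q) =
        (-((1 + t ^ 2 - q) / Nq t q) + (-2) * (t ^ 2 / Nq t q)) +
          (4 * (1 + k)) * ((t * (1 + t ^ 2 - q) / Nq t q) * (t * (1 + t ^ 2 - q) / Nq t q)) := by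
        field_simp
        ring
      rw [e]
      have h1 := mul_le_of_abs (u1_le (t := t) hq) (u1_le (t := t) hq)
      have h2 := one_le_sw (t := t) hq
      have h3 := u6_le (t := t) hq
      have h4 := u3_le (t := t) hq
      refine (abs_add_le _ _).trans ?_
      rw [abs_mul (4 * (1 + k)), abs_of_pos (by linarith : 0 < 4 * (1 + k))]
      have h5 : |-((1 + t ^ 2 - q) / Nq t q) + (-2) * (t ^ 2 / Nq t q)| ≤ 3 := by
        refine (abs_add_le _ _).trans ?_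
        rw [abs_mul, abs_neg, abs_neg, abs_two]
        linarith
      nlinarith [abs_nonneg ((t * (1 + t ^ 2 - q) / Nq t q) * (t * (1 + t ^ 2 - q) / Nq t q))])
    (fun t q y hq hy => by
      have e : y * -((1 - t ^ 2 + q) / Nq t q) = -(y * (1 - t ^ 2 + q) / Nq t q) := by ring
      rw [e, abs_neg]
      have h1 := u4_le (t := t) hq hy
      have h2 := one_le_sw (t := t) hq
      nlinarith)
    (fun t q y hq hy => by
      have hN := (Nq_pos (t := t) hq).ne'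
      have e : -((1 - t ^ 2 + q) / Nq t q) + 2 * y ^ 2 * (-(1 / Nq t q) +
          (1 - t ^ 2 + q) * (2 * (1 - t ^ 2 + q)) / Nq t q ^ 2 +
          -((1 - t ^ 2 + q) / Nq t q) * (-k * (2 * (1 - t ^ 2 + q)) / Nq t q)) =
        (-((1 - t ^ 2 + q) / Nq t q) + (-2) * (y ^ 2 / Nq t q)) +
          (4 * (1 + k)) * ((y * (1 - t ^ 2 + q) / Nq t q) * (y * (1 - t ^ 2 + q) / Nq t q)) := by
        field_simp
        ring
      rw [e]
      have h1 := mul_le_of_abs (u4_le (t := t) hq hy) (u4_le (t := t) hq hy)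
      have h2 := one_le_sw (t := t) hq
      have h3 := u5_le (t := t) hq
      have h4 := u7_le (t := t) hq hy
      refine (abs_add_le _ _).trans ?_
      rw [abs_mul (4 * (1 + k)), abs_of_pos (by linarith : 0 < 4 * (1 + k))]
      have h5 : |-((1 - t ^ 2 + q) / Nq t q) + (-2) * (y ^ 2 / Nq t q)| ≤ 3 := by
        refine (abs_add_le _ _).trans ?_
        rw [abs_mul, abs_neg, abs_neg, abs_two]
        linarith
      nlinarith [abs_nonneg ((y * (1 - t ^ 2 + q) / Nq t q) * (y * (1 - t ^ 2 + q) / Nq t q))])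
  have i1 : Integrable (fun z : ℝ × EuclideanSpace ℝ (Fin d) =>
      rho k z.1 (‖z.2‖ ^ 2) * (fun t q => wq t q / Nq t q) z.1 (‖z.2‖ ^ 2)) :=
    II_int hk (fun t q => wq t q / Nq t q) (by unfold wq Nq; fun_prop) 1 (fun t q hq => by
      rw [one_mul]; exact (u2_le hq).trans (one_le_sw hq))
  have i2 : Integrable (fun z : ℝ × EuclideanSpace ℝ (Fin d) =>
      rho k z.1 (‖z.2‖ ^ 2) * (fun t q => t ^ 2 / Nq t q) z.1 (‖z.2‖ ^ 2)) :=
    II_int hk (fun t q => t ^ 2 / Nq t q) (by unfold Nq; fun_prop) 1 (fun t q hq => by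
      rw [one_mul]; exact (u3_le hq).trans (one_le_sw hq))
  have i3 : Integrable (fun z : ℝ × EuclideanSpace ℝ (Fin d) =>
      rho k z.1 (‖z.2‖ ^ 2) * (fun t q => (t ^ 2 * (1 + t ^ 2 - q) ^ 2 +
        q * (1 - t ^ 2 + q) ^ 2) / Nq t q ^ 2) z.1 (‖z.2‖ ^ 2)) :=
    II_int hk (fun t q => (t ^ 2 * (1 + t ^ 2 - q) ^ 2 +
        q * (1 - t ^ 2 + q) ^ 2) / Nq t q ^ 2) (by unfold Nq; fun_prop) 2 (fun t q hq => by
      have hN := Nq_pos (t := t) hq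
      have e : (t ^ 2 * (1 + t ^ 2 - q) ^ 2 + q * (1 - t ^ 2 + q) ^ 2) / Nq t q ^ 2 =
          (t * (1 + t ^ 2 - q) / Nq t q) * (t * (1 + t ^ 2 - q) / Nq t q) +
          (√q * (1 - t ^ 2 + q) / Nq t q) * (√q * (1 - t ^ 2 + q) / Nq t q) := by
        field_simp
        rw [Real.sq_sqrt hq]
        ring
      rw [e]
      have h1 := mul_le_of_abs (u1_le (t := t) hq) (u1_le (t := t) hq)
      have h3 := u4_le (t := t) (y := √q) hq (by rw [Real.sq_sqrt hq])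
      have h4 := mul_le_of_abs h3 h3
      have h2 := one_le_sw (t := t) hq
      refine (abs_add_le _ _).trans ?_
      linarith)
  unfold II at h ⊢
  have goal : 4 * (1 + k) * (∫ z : ℝ × EuclideanSpace ℝ (Fin d),
      rho k z.1 (‖z.2‖ ^ 2) * ((z.1 ^ 2 * (1 + z.1 ^ 2 - ‖z.2‖ ^ 2) ^ 2 +
        ‖z.2‖ ^ 2 * (1 - z.1 ^ 2 + ‖z.2‖ ^ 2) ^ 2) / Nq z.1 (‖z.2‖ ^ 2) ^ 2)) -
      ((1 + d) * (∫ z : ℝ × EuclideanSpace ℝ (Fin d),
        rho k z.1 (‖z.2‖ ^ 2) * (wq z.1 (‖z.2‖ ^ 2) / Nq z.1 (‖z.2‖ ^ 2))) +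
        (2 - 2 * d) * (∫ z : ℝ × EuclideanSpace ℝ (Fin d),
        rho k z.1 (‖z.2‖ ^ 2) * (z.1 ^ 2 / Nq z.1 (‖z.2‖ ^ 2)))) = 0 := by
    have hadd : Integrable (fun z : ℝ × EuclideanSpace ℝ (Fin d) =>
        (1 + (d:ℝ)) * (rho k z.1 (‖z.2‖ ^ 2) * (fun t q => wq t q / Nq t q) z.1 (‖z.2‖ ^ 2)) +
        (2 - 2 * (d:ℝ)) * (rho k z.1 (‖z.2‖ ^ 2) *
          (fun t q => t ^ 2 / Nq t q) z.1 (‖z.2‖ ^ 2))) :=
      (i1.const_mul _).add (i2.const_mul _)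
    rw [← integral_const_mul, ← integral_const_mul, ← integral_const_mul,
      ← integral_add (i1.const_mul _) (i2.const_mul _),
      ← integral_sub (i3.const_mul _) hadd, ← h]
    refine integral_congr_ae (Eventually.of_forall fun z => ?_)
    simp only
    have hN := (Nq_pos (t := z.1) (q := ‖z.2‖ ^ 2) (by positivity)).ne'
    have e : (-((1 + 3 * z.1 ^ 2 - ‖z.2‖ ^ 2) / Nq z.1 (‖z.2‖ ^ 2)) +
        z.1 * (1 + z.1 ^ 2 - ‖z.2‖ ^ 2) * (4 * z.1 * (1 + z.1 ^ 2 - ‖z.2‖ ^ 2)) /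
          Nq z.1 (‖z.2‖ ^ 2) ^ 2 +
        -(z.1 * (1 + z.1 ^ 2 - ‖z.2‖ ^ 2) / Nq z.1 (‖z.2‖ ^ 2)) *
          (-k * (4 * z.1 * (1 + z.1 ^ 2 - ‖z.2‖ ^ 2)) / Nq z.1 (‖z.2‖ ^ 2)) +
        d * -((1 - z.1 ^ 2 + ‖z.2‖ ^ 2) / Nq z.1 (‖z.2‖ ^ 2)) +
        2 * ‖z.2‖ ^ 2 * (-(1 / Nq z.1 (‖z.2‖ ^ 2)) +
          (1 - z.1 ^ 2 + ‖z.2‖ ^ 2) * (2 * (1 - z.1 ^ 2 + ‖z.2‖ ^ 2)) / Nq z.1 (‖z.2‖ ^ 2) ^ 2 +
          -((1 - z.1 ^ 2 + ‖z.2‖ ^ 2) / Nq z.1 (‖z.2‖ ^ 2)) *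
            (-k * (2 * (1 - z.1 ^ 2 + ‖z.2‖ ^ 2)) / Nq z.1 (‖z.2‖ ^ 2)))) =
        4 * (1 + k) * ((z.1 ^ 2 * (1 + z.1 ^ 2 - ‖z.2‖ ^ 2) ^ 2 +
          ‖z.2‖ ^ 2 * (1 - z.1 ^ 2 + ‖z.2‖ ^ 2) ^ 2) / Nq z.1 (‖z.2‖ ^ 2) ^ 2) -
        ((1 + (d:ℝ)) * (wq z.1 (‖z.2‖ ^ 2) / Nq z.1 (‖z.2‖ ^ 2)) +
        (2 - 2 * (d:ℝ)) * (z.1 ^ 2 / Nq z.1 (‖z.2‖ ^ 2))) := by
      unfold wq
      field_simp
      ring
    linear_combination (-rho k z.1 (‖z.2‖ ^ 2)) * e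
  linarith

end Pool.Agent.ConeMax
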