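import Pool.Agent.ConeMax.Modulus
import Pool.Agent.ConeMax.Ident2

set_option autoImplicit false
set_option linter.style.haveILetI false

open MeasureTheory Filter Topology Set

namespace Pool.Agent.ConeMax

variable {d : ℕ}

/-- real part of the multiplier -/
noncomputable def RR (d : ℕ) (t q : ℝ) : ℝ :=
  ((d:ℝ) - 1) * (((d:ℝ) + 1) * ((wq t q ^ 2 - t ^ 2 * (1 + t ^ 2 - q) ^ 2) / Nq t q ^ 2) -
    (1 - t ^ 2 + q) / Nq t q)

theorem RR_eq (d : ℕ) {t q : ℝ} (hq : 0 ≤ q) :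
    RR d t q = (((d:ℝ) ^ 2 - 1) - ((d:ℝ) - 1)) * (wq t q / Nq t q) +
      (-((d:ℝ) ^ 2 - 1) + 2 * ((d:ℝ) - 1)) * (t ^ 2 / Nq t q) +
      (-((d:ℝ) ^ 2 - 1)) * ((t ^ 2 * (1 + t ^ 2 - q) ^ 2 + q * (1 - t ^ 2 + q) ^ 2) /
        Nq t q ^ 2) := by
  have hN := (Nq_pos (t := t) hq).ne'
  unfold RR
  have key : wq t q ^ 2 - t ^ 2 * (1 + t ^ 2 - q) ^ 2 = (wq t q - t ^ 2) * Nq t q -
      (t ^ 2 * (1 + t ^ 2 - q) ^ 2 + q * (1 - t ^ 2 + q) ^ 2) := by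
    unfold wq Nq; ring
  have key2 : 1 - t ^ 2 + q = wq t q - 2 * t ^ 2 := by unfold wq; ring
  rw [key]
  have e1 : ((wq t q - t ^ 2) * Nq t q -
      (t ^ 2 * (1 + t ^ 2 - q) ^ 2 + q * (1 - t ^ 2 + q) ^ 2)) / Nq t q ^ 2 =
      wq t q / Nq t q - t ^ 2 / Nq t q -
      (t ^ 2 * (1 + t ^ 2 - q) ^ 2 + q * (1 - t ^ 2 + q) ^ 2) / Nq t q ^ 2 := by
    field_simp
  have e2 : (1 - t ^ 2 + q) / Nq t q = wq t q / Nq t q - 2 * (t ^ 2 / Nq t q) := by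
    rw [key2]; ring
  rw [e1, e2]
  ring

theorem iL {k : ℝ} (hk : (d:ℝ) + 1 < 2 * k) : Integrable (fun z : ℝ × EuclideanSpace ℝ (Fin d) =>
      rho k z.1 (‖z.2‖ ^ 2) * (wq z.1 (‖z.2‖ ^ 2) / Nq z.1 (‖z.2‖ ^ 2))) :=
  II_int hk (fun t q => wq t q / Nq t q) (by unfold wq Nq; fun_prop) 1 (fun t q hq => by
    rw [one_mul]; exact (u2_le hq).trans (one_le_sw hq))

theorem iT {k : ℝ} (hk : (d:ℝ) + 1 < 2 * k) : Integrable (fun z : ℝ × EuclideanSpace ℝ (Fin d) =>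
      rho k z.1 (‖z.2‖ ^ 2) * (z.1 ^ 2 / Nq z.1 (‖z.2‖ ^ 2))) :=
  II_int hk (fun t q => t ^ 2 / Nq t q) (by unfold Nq; fun_prop) 1 (fun t q hq => by
      rw [one_mul]; exact (u3_le hq).trans (one_le_sw hq))

theorem iX {k : ℝ} (hk : (d:ℝ) + 1 < 2 * k) : Integrable (fun z : ℝ × EuclideanSpace ℝ (Fin d) =>
      rho k z.1 (‖z.2‖ ^ 2) * ((z.1 ^ 2 * (1 + z.1 ^ 2 - ‖z.2‖ ^ 2) ^ 2 +
        ‖z.2‖ ^ 2 * (1 - z.1 ^ 2 + ‖z.2‖ ^ 2) ^ 2) / Nq z.1 (‖z.2‖ ^ 2) ^ 2)) :=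
  II_int hk (fun t q => (t ^ 2 * (1 + t ^ 2 - q) ^ 2 +
        q * (1 - t ^ 2 + q) ^ 2) / Nq t q ^ 2) (by unfold Nq; fun_prop) 2 (fun t q hq => by
      have hN := Nq_pos (t := t) hq
      have e : (t ^ 2 * (1 + t ^ 2 - q) ^ 2 + q * (1 - t ^ 2 + q) ^ 2) / Nq t q ^ 2 =
          (t * (1 + t ^ 2 - q) / Nq t q) * (t * (1 + t ^ 2 - q) / Nq t q) +
          (√q * (1 - t ^ 2 + q) / Nq t q) * (√q * (1 - t ^ 2 + q) / Nq t q) := by
        field_simp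
        rw [Real.sq_sqrt hq]
        ring
      rw [e]
      have h1 := mul_le_of_abs (u1_le (t := t) hq) (u1_le (t := t) hq)
      have h3 := u4_le (t := t) (y := √q) hq (by rw [Real.sq_sqrt hq])
      have h4 := mul_le_of_abs h3 h3
      have h2 := one_le_sw (t := t) hq
      refine (abs_add_le _ _).trans ?_
      linarith)

theorem i1 {k : ℝ} (hk : (d:ℝ) + 1 < 2 * k) : Integrable (fun z : ℝ × EuclideanSpace ℝ (Fin d) =>
      rho k z.1 (‖z.2‖ ^ 2)) := by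
  have := II_int hk (fun _ _ => 1) (by fun_prop) 1 (fun t q hq => by
      rw [abs_one, one_mul]; exact one_le_sw hq)
  simpa using this

theorem iRR {k : ℝ} (hk : (d:ℝ) + 1 < 2 * k) : Integrable (fun z : ℝ × EuclideanSpace ℝ (Fin d) =>
      rho k z.1 (‖z.2‖ ^ 2) * RR d z.1 (‖z.2‖ ^ 2)) := by
  have h := (((iL hk).const_mul (((d:ℝ) ^ 2 - 1) - ((d:ℝ) - 1))).add
    ((iT hk).const_mul (-((d:ℝ) ^ 2 - 1) + 2 * ((d:ℝ) - 1)))).add
    ((iX hk).const_mul (-((d:ℝ) ^ 2 - 1)))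
  refine h.congr (Eventually.of_forall fun z => ?_)
  simp only [Pi.add_apply]
  rw [RR_eq d (by positivity)]
  ring

theorem II_RR {k : ℝ} (hk : (d:ℝ) + 1 < 2 * k) :
    II d k (RR d) = (((d:ℝ) ^ 2 - 1) - ((d:ℝ) - 1)) * II d k (fun t q => wq t q / Nq t q) +
      (-((d:ℝ) ^ 2 - 1) + 2 * ((d:ℝ) - 1)) * II d k (fun t q => t ^ 2 / Nq t q) +
      (-((d:ℝ) ^ 2 - 1)) * II d k (fun t q => (t ^ 2 * (1 + t ^ 2 - q) ^ 2 +
        q * (1 - t ^ 2 + q) ^ 2) / Nq t q ^ 2) := by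
  unfold II
  have hadd : Integrable (fun z : ℝ × EuclideanSpace ℝ (Fin d) =>
      (((d:ℝ) ^ 2 - 1) - ((d:ℝ) - 1)) *
        (rho k z.1 (‖z.2‖ ^ 2) * (wq z.1 (‖z.2‖ ^ 2) / Nq z.1 (‖z.2‖ ^ 2))) +
      (-((d:ℝ) ^ 2 - 1) + 2 * ((d:ℝ) - 1)) *
        (rho k z.1 (‖z.2‖ ^ 2) * (z.1 ^ 2 / Nq z.1 (‖z.2‖ ^ 2)))) :=
    ((iL hk).const_mul _).add ((iT hk).const_mul _)
  rw [← integral_const_mul, ← integral_const_mul, ← integral_const_mul,
    ← integral_add ((iL hk).const_mul _) ((iT hk).const_mul _),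
    ← integral_add hadd ((iX hk).const_mul _)]
  refine integral_congr_ae (Eventually.of_forall fun z => ?_)
  simp only
  rw [RR_eq d (by positivity)]
  ring

/-- positivity of the total mass -/
theorem M_pos {k : ℝ} (hk : (d:ℝ) + 1 < 2 * k) : 0 < II d k (fun _ _ => 1) := by
  haveI := haar_inst (d := d)
  unfold II
  simp only [mul_one]
  rw [integral_pos_iff_support_of_nonneg
    (fun z => rho_nonneg k (by positivity)) (i1 hk)]
  have : Function.support (fun z : ℝ × EuclideanSpace ℝ (Fin d) => rho k z.1 (‖z.2‖ ^ 2)) =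
      Set.univ := by
    ext z
    simp only [Function.mem_support, Set.mem_univ, iff_true]
    exact (rho_pos k (by positivity)).ne'
  rw [this]
  exact IsOpen.measure_pos _ isOpen_univ ⟨0, trivial⟩

theorem alg_X (X Y P e : ℝ) (hP : P ≠ 0) (he : e ≠ 0)
    (h : 2 * P / e * X = Y) : X = Y * (e / (2 * P)) := by
  rw [← h]
  field_simp

theorem alg_final (M D s a b P : ℝ) (ha : a ≠ 0) (hb : b ≠ 0) (hP : P ≠ 0) (ea : a = D - 1)
    (eb : b = 1 + 2 * s) (eP : P = D ^ 2 + 2 * D - 1 - 4 * s) :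
    (D ^ 2 - 1 - a) * (M * ((D - 2 + 2 * s) / (2 * a))) +
      (-(D ^ 2 - 1) + 2 * a) * (M * ((D - 2 + 2 * s) / (2 * a)) * ((D - 2 * s) / (2 * a * b))) +
      -(D ^ 2 - 1) * (((1 + D) * (M * ((D - 2 + 2 * s) / (2 * a))) +
        (2 - 2 * D) * (M * ((D - 2 + 2 * s) / (2 * a)) * ((D - 2 * s) / (2 * a * b)))) *
          ((D - 2 * s) / (2 * P))) -
      M * ((2 * s + D - 1) * (2 * s + D - 2) / 4) =
      M * ((D - 2 + 2 * s) * (2 * s - 1) * (4 * s - a) / (4 * P)) := by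
  field_simp
  subst ea eb eP
  ring

/-- the value of the first variation -/
theorem Q_eq (hd : 2 ≤ d) {s k : ℝ} (hs : 1 / 2 < s) (hs2 : s < (d:ℝ) / 2)
    (hkdef : k = ((d:ℝ) ^ 2 - 1) / (2 * ((d:ℝ) - 2 * s))) (hk : (d:ℝ) + 1 < 2 * k) :
    II d k (RR d) - II d k (fun _ _ => 1) * ((2 * s + d - 1) * (2 * s + d - 2) / 4) =
      II d k (fun _ _ => 1) * (((d:ℝ) - 2 + 2 * s) * (2 * s - 1) * (4 * s - (d - 1)) /
        (4 * ((d:ℝ) ^ 2 + 2 * d - 1 - 4 * s))) := by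
  have h2d : (2:ℝ) ≤ d := two_le_cast hd
  have hE := identE hk
  have hK := identK hk
  have hD := identD hk
  rw [II_RR hk]
  set M := II d k (fun _ _ => 1)
  set L := II d k (fun t q => wq t q / Nq t q)
  set T := II d k (fun t q => t ^ 2 / Nq t q)
  set X := II d k (fun t q => (t ^ 2 * (1 + t ^ 2 - q) ^ 2 +
        q * (1 - t ^ 2 + q) ^ 2) / Nq t q ^ 2)
  have hds : 0 < (d:ℝ) - 2 * s := by linarith
  have hP : 0 < (d:ℝ) ^ 2 + 2 * d - 1 - 4 * s := by nlinarith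
  have hk0 : 0 < k := by linarith
  have hL : L = M * (((d:ℝ) - 2 + 2 * s) / (2 * ((d:ℝ) - 1))) := by
    have h1 : 4 * k * L = (4 * k - d - 1) * M := by linarith
    have h2 : L = (4 * k - d - 1) * M / (4 * k) := by
      field_simp
      linarith
    rw [h2, hkdef]
    have : (d:ℝ) - 1 ≠ 0 := by linarith
    have h3 : (d:ℝ) ^ 2 - 1 ≠ 0 := by nlinarith
    have h4 : (d:ℝ) - 2 * s ≠ 0 := hds.ne'
    field_simp
    ring
  have hT : T = L * (((d:ℝ) - 2 * s) / (2 * ((d:ℝ) - 1) * (1 + 2 * s))) := by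
    have h0 : 4 * k + 2 - 2 * d ≠ 0 := by linarith
    have h1 : (4 * k + 2 - 2 * d) * T = L := by linarith
    have h2 : T = L / (4 * k + 2 - 2 * d) := by
      field_simp
      linarith
    have h3 : 4 * k + 2 - 2 * d = (2 * ((d:ℝ) - 1) * (1 + 2 * s)) / ((d:ℝ) - 2 * s) := by
      rw [hkdef]
      field_simp
      ring
    rw [h2, h3]
    have : (d:ℝ) - 1 ≠ 0 := by linarith
    have : (1:ℝ) + 2 * s ≠ 0 := by linarith
    field_simp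
  have hX : X = ((1 + d) * L + (2 - 2 * d) * T) *
      (((d:ℝ) - 2 * s) / (2 * ((d:ℝ) ^ 2 + 2 * d - 1 - 4 * s))) := by
    have h3 : 4 * (1 + k) = (2 * ((d:ℝ) ^ 2 + 2 * d - 1 - 4 * s)) / ((d:ℝ) - 2 * s) := by
      rw [hkdef]
      field_simp
      ring
    rw [h3] at hD
    exact alg_X _ _ _ _ hP.ne' hds.ne' (by linarith)
  rw [hX, hT, hL]
  exact alg_final M d s ((d:ℝ) - 1) (1 + 2 * s) ((d:ℝ) ^ 2 + 2 * d - 1 - 4 * s)
    (by linarith) (by linarith) hP.ne' rfl rfl rfl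

end Pool.Agent.ConeMax
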