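import Pool.Agent.ConeMax.Fourier

set_option autoImplicit false
set_option linter.style.haveILetI false

open MeasureTheory Filter Topology Set

namespace Pool.Agent.ConeMax

variable {d : ℕ}

noncomputable def U0 (l : ℂ) (y : EuclideanSpace ℝ (Fin d)) : ℂ :=
  ∫ ξ : EuclideanSpace ℝ (Fin d), ((‖ξ‖⁻¹ : ℝ) : ℂ) * Complex.exp (A l y ξ)
noncomputable def U1 (l : ℂ) (y : EuclideanSpace ℝ (Fin d)) : ℂ :=
  ∫ ξ : EuclideanSpace ℝ (Fin d), Complex.exp (A l y ξ)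
noncomputable def U2 (l : ℂ) (y : EuclideanSpace ℝ (Fin d)) : ℂ :=
  ∫ ξ : EuclideanSpace ℝ (Fin d), (‖ξ‖ : ℂ) * Complex.exp (A l y ξ)
noncomputable def Nx (l : ℂ) (y x : EuclideanSpace ℝ (Fin d)) : ℂ :=
  ∫ ξ : EuclideanSpace ℝ (Fin d), ((inner ℝ ξ x / ‖ξ‖ : ℝ) : ℂ) * Complex.exp (A l y ξ)
noncomputable def Mx (l : ℂ) (y x : EuclideanSpace ℝ (Fin d)) : ℂ :=
  ∫ ξ : EuclideanSpace ℝ (Fin d), ((inner ℝ ξ x : ℝ) : ℂ) * Complex.exp (A l y ξ)

theorem two_le_cast (hd : 2 ≤ d) : (2:ℝ) ≤ d := by exact_mod_cast hd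

theorem int0 (hd : 2 ≤ d) {l : ℂ} (hl : 0 < l.re) (y : EuclideanSpace ℝ (Fin d)) :
    Integrable (fun ξ : EuclideanSpace ℝ (Fin d) =>
      ((‖ξ‖⁻¹ : ℝ) : ℂ) * Complex.exp (A l y ξ)) := by
  have := integrable_exp hd (m := -1) (by linarith [two_le_cast hd]) hl y
  simpa [Real.rpow_neg_one] using this

theorem int1 (hd : 2 ≤ d) {l : ℂ} (hl : 0 < l.re) (y : EuclideanSpace ℝ (Fin d)) :
    Integrable (fun ξ : EuclideanSpace ℝ (Fin d) => Complex.exp (A l y ξ)) := by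
  have := integrable_exp hd (m := 0) (by linarith [two_le_cast hd]) hl y
  simpa using this

theorem int2 (hd : 2 ≤ d) {l : ℂ} (hl : 0 < l.re) (y : EuclideanSpace ℝ (Fin d)) :
    Integrable (fun ξ : EuclideanSpace ℝ (Fin d) => (‖ξ‖ : ℂ) * Complex.exp (A l y ξ)) := by
  have := integrable_exp hd (m := 1) (by linarith [two_le_cast hd]) hl y
  simpa using this

theorem abs_inner_div_le (x ξ : EuclideanSpace ℝ (Fin d)) : ‖(inner ℝ ξ x / ‖ξ‖ : ℝ)‖ ≤ ‖x‖ := by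
  rw [norm_div, norm_norm]
  rcases eq_or_ne ξ 0 with h | h
  · rw [h]; simp
  · rw [div_le_iff₀ (norm_pos_iff.mpr h), mul_comm]
    exact norm_inner_le_norm _ x

theorem intN (hd : 2 ≤ d) {l : ℂ} (hl : 0 < l.re) (y x : EuclideanSpace ℝ (Fin d)) :
    Integrable (fun ξ : EuclideanSpace ℝ (Fin d) =>
      ((inner ℝ ξ x / ‖ξ‖ : ℝ) : ℂ) * Complex.exp (A l y ξ)) := by
  refine (int1 hd hl y).bdd_mul (c := ‖x‖) ?_ ?_
  · apply Measurable.aestronglyMeasurable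
    fun_prop
  · refine Eventually.of_forall fun ξ => ?_
    rw [Complex.norm_real]
    exact abs_inner_div_le x ξ

theorem intM (hd : 2 ≤ d) {l : ℂ} (hl : 0 < l.re) (y x : EuclideanSpace ℝ (Fin d)) :
    Integrable (fun ξ : EuclideanSpace ℝ (Fin d) =>
      ((inner ℝ ξ x : ℝ) : ℂ) * Complex.exp (A l y ξ)) := by
  have h := (int2 hd hl y).bdd_mul (c := ‖x‖)
    (f := fun ξ : EuclideanSpace ℝ (Fin d) => ((inner ℝ ξ x / ‖ξ‖ : ℝ) : ℂ)) ?_ ?_
  · refine h.congr (Eventually.of_forall fun ξ => ?_)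
    simp only
    rw [← mul_assoc]
    congr 1
    rcases eq_or_ne ξ 0 with h | h
    · rw [h]; simp
    · have : (‖ξ‖ : ℂ) ≠ 0 := by exact_mod_cast (norm_pos_iff.mpr h).ne'
      push_cast
      field_simp
  · apply Measurable.aestronglyMeasurable
    fun_prop
  · refine Eventually.of_forall fun ξ => ?_
    rw [Complex.norm_real]
    exact abs_inner_div_le x ξ

/-- (T0) -/
theorem T0 (hd : 2 ≤ d) {l : ℂ} (hl : 0 < l.re) (y x : EuclideanSpace ℝ (Fin d)) :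
    l * Nx l y x = Complex.I * ((inner ℝ y x : ℝ) : ℂ) * U1 l y := by
  have h := translation0 hd hl y x
  have h2 : (fun ξ : EuclideanSpace ℝ (Fin d) => dirn l y x ξ * Complex.exp (A l y ξ)) =
      fun ξ => (-l) * (((inner ℝ ξ x / ‖ξ‖ : ℝ) : ℂ) * Complex.exp (A l y ξ)) +
        (Complex.I * ((inner ℝ y x : ℝ) : ℂ)) * Complex.exp (A l y ξ) := by
    funext ξ
    unfold dirn
    ring
  rw [h2, integral_add ((intN hd hl y x).const_mul _) ((int1 hd hl y).const_mul _),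
    integral_const_mul, integral_const_mul] at h
  unfold Nx U1
  linear_combination -h

theorem ae_ne_zero (hd : 2 ≤ d) : ∀ᵐ ξ : EuclideanSpace ℝ (Fin d), ξ ≠ 0 := by
  haveI := nontriv hd
  rw [ae_iff]; simp

/-- (D0) -/
theorem D0 (hd : 2 ≤ d) {l : ℂ} (hl : 0 < l.re) (y : EuclideanSpace ℝ (Fin d)) :
    l * U1 l y - Complex.I * Nx l y y = ((d:ℂ) - 1) * U0 l y := by
  have h := dilation hd (m := -1) (by linarith [two_le_cast hd]) hl y
  have h2 : ∫ ξ : EuclideanSpace ℝ (Fin d), ((‖ξ‖ ^ (-1:ℝ) : ℝ) : ℂ) *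
        (A l y ξ * Complex.exp (A l y ξ)) =
      ∫ ξ : EuclideanSpace ℝ (Fin d), ((-l) * Complex.exp (A l y ξ) +
        Complex.I * (((inner ℝ ξ y / ‖ξ‖ : ℝ) : ℂ) * Complex.exp (A l y ξ))) := by
    refine integral_congr_ae ?_
    filter_upwards [ae_ne_zero hd] with ξ hξ
    have h0 : (‖ξ‖ : ℂ) ≠ 0 := by exact_mod_cast (norm_pos_iff.mpr hξ).ne'
    rw [Real.rpow_neg_one, real_inner_comm]
    have h3 : ((‖ξ‖⁻¹ : ℝ) : ℂ) * A l y ξ = -l + Complex.I * ((inner ℝ y ξ / ‖ξ‖ : ℝ) : ℂ) := by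
      unfold A
      push_cast
      field_simp
    calc ((‖ξ‖⁻¹ : ℝ) : ℂ) * (A l y ξ * Complex.exp (A l y ξ))
        = (((‖ξ‖⁻¹ : ℝ) : ℂ) * A l y ξ) * Complex.exp (A l y ξ) := by ring
      _ = _ := by rw [h3]; ring
  rw [h2, integral_add ((int1 hd hl y).const_mul _) ((intN hd hl y y).const_mul _),
    integral_const_mul, integral_const_mul] at h
  simp only [Real.rpow_neg_one] at h
  unfold Nx U1 U0
  push_cast at h ⊢
  linear_combination -h

/-- (T1) -/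
theorem T1 (hd : 2 ≤ d) {l : ℂ} (hl : 0 < l.re) (y x : EuclideanSpace ℝ (Fin d)) :
    Nx l y x - l * Mx l y x + Complex.I * ((inner ℝ y x : ℝ) : ℂ) * U2 l y = 0 := by
  have h := translation1 hd hl y x
  have h2 : ∫ ξ : EuclideanSpace ℝ (Fin d),
      (((inner ℝ ξ x / ‖ξ‖ : ℝ) : ℂ) + (‖ξ‖ : ℂ) * dirn l y x ξ) * Complex.exp (A l y ξ) =
      ∫ ξ : EuclideanSpace ℝ (Fin d), ((((inner ℝ ξ x / ‖ξ‖ : ℝ) : ℂ) * Complex.exp (A l y ξ) +
        (-l) * (((inner ℝ ξ x : ℝ) : ℂ) * Complex.exp (A l y ξ))) +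
        (Complex.I * ((inner ℝ y x : ℝ) : ℂ)) * ((‖ξ‖ : ℂ) * Complex.exp (A l y ξ))) := by
    refine integral_congr_ae ?_
    filter_upwards [ae_ne_zero hd] with ξ hξ
    have h0 : (‖ξ‖ : ℂ) ≠ 0 := by exact_mod_cast (norm_pos_iff.mpr hξ).ne'
    unfold dirn
    push_cast
    field_simp
    ring
  have hadd : Integrable (fun ξ : EuclideanSpace ℝ (Fin d) =>
      ((inner ℝ ξ x / ‖ξ‖ : ℝ) : ℂ) * Complex.exp (A l y ξ) +
        (-l) * (((inner ℝ ξ x : ℝ) : ℂ) * Complex.exp (A l y ξ))) :=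
    (intN hd hl y x).add ((intM hd hl y x).const_mul _)
  rw [h2, integral_add hadd
    ((int2 hd hl y).const_mul _), integral_add (intN hd hl y x) ((intM hd hl y x).const_mul _),
    integral_const_mul, integral_const_mul] at h
  unfold Nx Mx U2
  linear_combination h

/-- (D1) -/
theorem D1 (hd : 2 ≤ d) {l : ℂ} (hl : 0 < l.re) (y : EuclideanSpace ℝ (Fin d)) :
    l * U2 l y - Complex.I * Mx l y y = (d:ℂ) * U1 l y := by
  have h := dilation hd (m := 0) (by linarith [two_le_cast hd]) hl y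
  have h2 : ∫ ξ : EuclideanSpace ℝ (Fin d), ((‖ξ‖ ^ (0:ℝ) : ℝ) : ℂ) *
        (A l y ξ * Complex.exp (A l y ξ)) =
      ∫ ξ : EuclideanSpace ℝ (Fin d), ((-l) * ((‖ξ‖ : ℂ) * Complex.exp (A l y ξ)) +
        Complex.I * (((inner ℝ ξ y : ℝ) : ℂ) * Complex.exp (A l y ξ))) := by
    refine integral_congr_ae (Eventually.of_forall fun ξ => ?_)
    simp only [Real.rpow_zero]
    unfold A
    rw [real_inner_comm ξ y]
    push_cast
    ring
  rw [h2, integral_add ((int2 hd hl y).const_mul _) ((intM hd hl y y).const_mul _),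
    integral_const_mul, integral_const_mul] at h
  simp only [Real.rpow_zero] at h
  unfold Mx U1 U2
  push_cast at h ⊢
  simp only [one_mul] at h
  linear_combination -h

/-- `z = l² + |y|²` -/
noncomputable def Z (l : ℂ) (y : EuclideanSpace ℝ (Fin d)) : ℂ := l ^ 2 + ((‖y‖ ^ 2 : ℝ) : ℂ)

theorem Z_ne_zero {l : ℂ} (hl : 0 < l.re) (y : EuclideanSpace ℝ (Fin d)) : Z l y ≠ 0 := by
  intro h
  have h1 := congrArg Complex.re h
  have h2 := congrArg Complex.im h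
  simp only [Z, Complex.add_re, Complex.add_im, Complex.ofReal_re, Complex.ofReal_im,
    Complex.zero_re, Complex.zero_im, pow_two, Complex.mul_re, Complex.mul_im] at h1 h2
  have h3 : l.re * l.im = 0 := by linarith
  have h4 : l.im = 0 := by
    rcases mul_eq_zero.mp h3 with h | h
    · exact absurd h hl.ne'
    · exact h
  rw [h4] at h1
  nlinarith [mul_self_nonneg ‖y‖]

theorem ne_zero_of_re {l : ℂ} (hl : 0 < l.re) : l ≠ 0 := by
  rintro rfl
  simp at hl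

theorem Z_U1 (hd : 2 ≤ d) {l : ℂ} (hl : 0 < l.re) (y : EuclideanSpace ℝ (Fin d)) :
    Z l y * U1 l y = l * ((d:ℂ) - 1) * U0 l y := by
  have h1 := T0 hd hl y y
  have h2 := D0 hd hl y
  rw [real_inner_self_eq_norm_sq] at h1
  unfold Z
  linear_combination l * h2 + Complex.I * h1 + ((‖y‖ ^ 2 : ℝ) : ℂ) * U1 l y * Complex.I_sq

theorem Z_U2 (hd : 2 ≤ d) {l : ℂ} (hl : 0 < l.re) (y : EuclideanSpace ℝ (Fin d)) :
    Z l y ^ 2 * U2 l y = ((d:ℂ) - 1) * (((d:ℂ) + 1) * l ^ 2 - Z l y) * U0 l y := by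
  have h1 := T0 hd hl y y
  have h3 := T1 hd hl y y
  have h4 := D1 hd hl y
  have h5 := Z_U1 hd hl y
  have hl0 := ne_zero_of_re hl
  rw [real_inner_self_eq_norm_sq] at h1 h3
  have h6 : l * Z l y * U2 l y = (((d:ℂ) + 1) * l ^ 2 - Z l y) * U1 l y := by
    unfold Z
    linear_combination l ^ 2 * h4 - Complex.I * l * h3 + Complex.I * h1 +
      ((‖y‖ ^ 2 : ℝ) : ℂ) * (U1 l y + l * U2 l y) * Complex.I_sq
  have h7 : l * (Z l y ^ 2 * U2 l y) =
      l * (((d:ℂ) - 1) * (((d:ℂ) + 1) * l ^ 2 - Z l y) * U0 l y) := by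
    linear_combination Z l y * h6 + (((d:ℂ) + 1) * l ^ 2 - Z l y) * h5
  exact mul_left_cancel₀ hl0 h7

end Pool.Agent.ConeMax
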