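import Mathlib

set_option autoImplicit false
set_option linter.style.haveILetI false

open MeasureTheory Filter Topology Set

namespace Pool.Agent.ConeMax

variable {d : ℕ}

theorem nontriv (hd : 2 ≤ d) : Nontrivial (EuclideanSpace ℝ (Fin d)) := by
  haveI : Nonempty (Fin d) := ⟨⟨0, by omega⟩⟩
  infer_instance

/-- integrability of `‖ξ‖^m e^{-a‖ξ‖}` -/
theorem integrable_pow_exp (hd : 2 ≤ d) {m a : ℝ} (hm : -(d:ℝ) < m) (ha : 0 < a) :
    Integrable (fun ξ : EuclideanSpace ℝ (Fin d) => ‖ξ‖ ^ m * Real.exp (-a * ‖ξ‖)) := by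
  haveI := nontriv hd
  refine (integrable_fun_norm_addHaar volume
    (f := fun r : ℝ => r ^ m * Real.exp (-a * r))).mpr ?_
  have h := integrableOn_rpow_mul_exp_neg_mul_rpow (p := 1) (s := m + d - 1) (b := a)
    (by linarith) one_pos ha
  refine (integrableOn_congr_fun ?_ measurableSet_Ioi).mpr h
  intro r hr
  have hr0 : (0:ℝ) < r := hr
  simp only [finrank_euclideanSpace, Fintype.card_fin, smul_eq_mul]
  rw [← mul_assoc, ← Real.rpow_natCast, ← Real.rpow_add hr0, Nat.cast_sub (by omega)]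
  simp only [Nat.cast_one, Real.rpow_one]
  congr 2
  ring

/-- radial integrals -/
theorem integral_pow_exp (hd : 2 ≤ d) {m a : ℝ} (hm : -(d:ℝ) < m) (ha : 0 < a) :
    ∫ ξ : EuclideanSpace ℝ (Fin d), ‖ξ‖ ^ m * Real.exp (-a * ‖ξ‖) =
      (d • (volume : Measure (EuclideanSpace ℝ (Fin d))).real (Metric.ball 0 1)) *
        ((1 / a) ^ (m + d) * Real.Gamma (m + d)) := by
  haveI := nontriv hd
  have h0 := integral_fun_norm_addHaar (volume : Measure (EuclideanSpace ℝ (Fin d)))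
    (fun r : ℝ => r ^ m * Real.exp (-a * r))
  rw [h0]
  have h := Real.integral_rpow_mul_exp_neg_mul_Ioi (a := m + d) (r := a) (by linarith) ha
  rw [← h]
  simp only [finrank_euclideanSpace, Fintype.card_fin, smul_eq_mul, nsmul_eq_mul]
  rw [mul_assoc]
  congr 2
  refine setIntegral_congr_fun measurableSet_Ioi ?_
  intro r hr
  have hr0 : (0:ℝ) < r := hr
  show r ^ (d - 1) * (r ^ m * Real.exp (-a * r)) = _
  rw [← mul_assoc, ← Real.rpow_natCast, ← Real.rpow_add hr0, Nat.cast_sub (by omega)]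
  simp only [Nat.cast_one]
  congr 2
  · ring
  · ring

/-- the exponent -/
noncomputable def A (l : ℂ) (y ξ : EuclideanSpace ℝ (Fin d)) : ℂ :=
  -l * (‖ξ‖ : ℂ) + Complex.I * ((inner ℝ y ξ : ℝ) : ℂ)

theorem A_re (l : ℂ) (y ξ : EuclideanSpace ℝ (Fin d)) : (A l y ξ).re = -l.re * ‖ξ‖ := by
  simp [A]

theorem A_norm_le (l : ℂ) (y ξ : EuclideanSpace ℝ (Fin d)) :
    ‖A l y ξ‖ ≤ (‖l‖ + ‖y‖) * ‖ξ‖ := by
  unfold A
  refine (norm_add_le _ _).trans ?_
  rw [norm_mul, norm_mul, norm_neg, Complex.norm_I, one_mul, Complex.norm_real, Complex.norm_real,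
    norm_norm, add_mul]
  exact add_le_add le_rfl (norm_inner_le_norm y ξ)

theorem A_continuous (l : ℂ) (y : EuclideanSpace ℝ (Fin d)) :
    Continuous (A l y) := by
  unfold A
  fun_prop

theorem A_smul (l : ℂ) (y ξ : EuclideanSpace ℝ (Fin d)) {c : ℝ} (hc : 0 ≤ c) :
    A l y (c • ξ) = c * A l y ξ := by
  unfold A
  rw [norm_smul, Real.norm_eq_abs, abs_of_nonneg hc, inner_smul_right]
  push_cast
  ring

/-- the integrals `∫ ‖ξ‖^m e^{A}` converge -/
theorem integrable_exp (hd : 2 ≤ d) {m : ℝ} (hm : -(d:ℝ) < m) {l : ℂ} (hl : 0 < l.re)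
    (y : EuclideanSpace ℝ (Fin d)) :
    Integrable (fun ξ : EuclideanSpace ℝ (Fin d) =>
      ((‖ξ‖ ^ m : ℝ) : ℂ) * Complex.exp (A l y ξ)) := by
  refine (integrable_pow_exp hd hm hl).mono' ?_ ?_
  · apply AEStronglyMeasurable.mul
    · apply Measurable.aestronglyMeasurable
      fun_prop
    · exact (Complex.continuous_exp.comp (A_continuous l y)).aestronglyMeasurable
  · refine Eventually.of_forall fun ξ => ?_
    rw [norm_mul, Complex.norm_real, Complex.norm_exp, A_re, Real.norm_eq_abs,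
      abs_of_nonneg (Real.rpow_nonneg (norm_nonneg _) _)]

/-- dilation identity -/
theorem dilation (hd : 2 ≤ d) {m : ℝ} (hm : -(d:ℝ) < m) {l : ℂ} (hl : 0 < l.re)
    (y : EuclideanSpace ℝ (Fin d)) :
    ∫ ξ : EuclideanSpace ℝ (Fin d), ((‖ξ‖ ^ m : ℝ) : ℂ) * (A l y ξ * Complex.exp (A l y ξ)) =
      -((d:ℂ) + m) * ∫ ξ : EuclideanSpace ℝ (Fin d),
        ((‖ξ‖ ^ m : ℝ) : ℂ) * Complex.exp (A l y ξ) := by
  haveI := nontriv hd
  set J : ℝ → ℂ := fun c => ∫ ξ : EuclideanSpace ℝ (Fin d),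
    ((‖ξ‖ ^ m : ℝ) : ℂ) * Complex.exp (c * A l y ξ) with hJ
  have hmeas : AEStronglyMeasurable (fun ξ : EuclideanSpace ℝ (Fin d) =>
      ((‖ξ‖ ^ m : ℝ) : ℂ)) := by
    apply Measurable.aestronglyMeasurable
    fun_prop
  -- scaling
  have hscale : ∀ c : ℝ, 0 < c → J c = ((c ^ (-((d:ℝ) + m)) : ℝ) : ℂ) * J 1 := by
    intro c hc
    have h1 := Measure.integral_comp_smul (volume : Measure (EuclideanSpace ℝ (Fin d)))
      (fun ξ => ((‖ξ‖ ^ m : ℝ) : ℂ) * Complex.exp (A l y ξ)) c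
    have h2 : ∀ ξ : EuclideanSpace ℝ (Fin d),
        ((‖c • ξ‖ ^ m : ℝ) : ℂ) * Complex.exp (A l y (c • ξ)) =
        ((c ^ m : ℝ) : ℂ) * (((‖ξ‖ ^ m : ℝ) : ℂ) * Complex.exp (c * A l y ξ)) := by
      intro ξ
      rw [A_smul l y ξ hc.le, norm_smul, Real.norm_eq_abs, abs_of_pos hc,
        Real.mul_rpow hc.le (norm_nonneg _)]
      push_cast
      ring
    simp only [h2] at h1
    rw [integral_const_mul] at h1
    have h3 : J c = ((c ^ m : ℝ) : ℂ)⁻¹ * (|(c ^ Module.finrank ℝ (EuclideanSpace ℝ (Fin d)))⁻¹| •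
        ∫ ξ : EuclideanSpace ℝ (Fin d), ((‖ξ‖ ^ m : ℝ) : ℂ) * Complex.exp (A l y ξ)) := by
      rw [← h1, ← mul_assoc, inv_mul_cancel₀, one_mul]
      exact_mod_cast (Real.rpow_pos_of_pos hc m).ne'
    rw [h3, hJ]
    simp only [finrank_euclideanSpace, Fintype.card_fin, Complex.ofReal_one, one_mul]
    rw [abs_of_pos (by positivity), Complex.real_smul, ← mul_assoc]
    congr 1
    rw [← Complex.ofReal_inv, ← Complex.ofReal_mul]
    congr 1
    rw [Real.rpow_neg hc.le, Real.rpow_add hc, Real.rpow_natCast, mul_inv, mul_comm]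
  -- derivative of J at 1, two ways
  have hder1 : HasDerivAt J (-((d:ℂ) + m) * J 1) 1 := by
    have h1 : HasDerivAt (fun c : ℝ => c ^ (-((d:ℝ) + m))) (-((d:ℝ) + m)) 1 := by
      have := Real.hasDerivAt_rpow_const (x := 1) (p := -((d:ℝ) + m)) (Or.inl one_ne_zero)
      simpa using this
    have h2 := (h1.ofReal_comp).mul_const (J 1)
    have h3 : (fun c : ℝ => ((c ^ (-((d:ℝ) + m)) : ℝ) : ℂ) * J 1) =ᶠ[𝓝 1] J := by
      filter_upwards [eventually_gt_nhds (zero_lt_one)] with c hc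
      exact (hscale c hc).symm
    have h4 := h2.congr_of_eventuallyEq h3.symm
    convert! h4 using 1
    push_cast
    ring
  have hder2 : HasDerivAt J (∫ ξ : EuclideanSpace ℝ (Fin d),
      ((‖ξ‖ ^ m : ℝ) : ℂ) * (A l y ξ * Complex.exp (((1:ℝ):ℂ) * A l y ξ))) 1 := by
    have hs : Metric.ball (1:ℝ) (1/2) ∈ 𝓝 (1:ℝ) := Metric.ball_mem_nhds _ (by norm_num)
    refine (hasDerivAt_integral_of_dominated_loc_of_deriv_le
      (F := fun (c : ℝ) (ξ : EuclideanSpace ℝ (Fin d)) =>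
        ((‖ξ‖ ^ m : ℝ) : ℂ) * Complex.exp (c * A l y ξ))
      (F' := fun (c : ℝ) (ξ : EuclideanSpace ℝ (Fin d)) =>
        ((‖ξ‖ ^ m : ℝ) : ℂ) * (A l y ξ * Complex.exp (c * A l y ξ)))
      (bound := fun ξ => (‖l‖ + ‖y‖) * (‖ξ‖ ^ (m + 1) * Real.exp (-(l.re / 2) * ‖ξ‖)))
      hs ?_ ?_ ?_ ?_ ?_ ?_).2
    · refine Eventually.of_forall fun c => hmeas.mul ?_
      exact (Complex.continuous_exp.comp
        (continuous_const.mul (A_continuous l y))).aestronglyMeasurable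
    · simpa using integrable_exp hd hm hl y
    · refine hmeas.mul ?_
      exact ((A_continuous l y).mul (Complex.continuous_exp.comp
        (continuous_const.mul (A_continuous l y)))).aestronglyMeasurable
    · have hne : ∀ᵐ ξ : EuclideanSpace ℝ (Fin d), ξ ≠ 0 := by
        rw [ae_iff]; simp
      filter_upwards [hne] with ξ hξ c hc
      have hξ0 : 0 < ‖ξ‖ := norm_pos_iff.mpr hξ
      rw [Metric.mem_ball, Real.dist_eq, abs_lt] at hc
      rw [norm_mul, norm_mul, Complex.norm_real, Complex.norm_exp, Real.norm_eq_abs,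
        abs_of_nonneg (Real.rpow_nonneg (norm_nonneg _) _)]
      have h1 : (((c:ℝ):ℂ) * A l y ξ).re = c * (-l.re * ‖ξ‖) := by
        rw [Complex.re_ofReal_mul, A_re]
      rw [h1]
      have h2 : Real.exp (c * (-l.re * ‖ξ‖)) ≤ Real.exp (-(l.re / 2) * ‖ξ‖) := by
        apply Real.exp_le_exp.mpr
        have : 0 < l.re * ‖ξ‖ := mul_pos hl hξ0
        nlinarith [hc.1, hc.2]
      have h3 := A_norm_le l y ξ
      rw [Real.rpow_add hξ0, Real.rpow_one]
      have h4 : 0 ≤ ‖ξ‖ ^ m := Real.rpow_nonneg (norm_nonneg _) _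
      calc ‖ξ‖ ^ m * (‖A l y ξ‖ * Real.exp (c * (-l.re * ‖ξ‖)))
          ≤ ‖ξ‖ ^ m * (((‖l‖ + ‖y‖) * ‖ξ‖) * Real.exp (-(l.re / 2) * ‖ξ‖)) := by gcongr
        _ = _ := by ring
    · exact (integrable_pow_exp hd (by linarith) (by linarith)).const_mul _
    · refine Eventually.of_forall fun ξ c _ => ?_
      have h1 : HasDerivAt (fun c : ℝ => ((c:ℝ):ℂ) * A l y ξ) (A l y ξ) c := by
        have := (Complex.ofRealCLM.hasDerivAt (x := c)).mul_const (A l y ξ)
        simpa using this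
      have h2 := (h1.cexp).const_mul ((‖ξ‖ ^ m : ℝ) : ℂ)
      convert! h2 using 1
      ring
  have := hder2.unique hder1
  simpa [hJ] using this

theorem translation_aux (H H' : EuclideanSpace ℝ (Fin d) → ℂ) (x : EuclideanSpace ℝ (Fin d))
    (bound : EuclideanSpace ℝ (Fin d) → ℝ)
    (hH : Integrable H)
    (hH'm : AEStronglyMeasurable H')
    (hb : ∀ᵐ ξ : EuclideanSpace ℝ (Fin d), ∀ τ ∈ Metric.ball (0:ℝ) 1, ‖H' (ξ + τ • x)‖ ≤ bound ξ)
    (hbi : Integrable bound)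
    (hder : ∀ᵐ ξ : EuclideanSpace ℝ (Fin d), ∀ τ ∈ Metric.ball (0:ℝ) 1,
      HasDerivAt (fun τ : ℝ => H (ξ + τ • x)) (H' (ξ + τ • x)) τ) :
    ∫ ξ, H' ξ = 0 := by
  have h1 := (hasDerivAt_integral_of_dominated_loc_of_deriv_le
    (μ := (volume : Measure (EuclideanSpace ℝ (Fin d))))
    (F := fun (τ : ℝ) (ξ : EuclideanSpace ℝ (Fin d)) => H (ξ + τ • x))
    (F' := fun (τ : ℝ) (ξ : EuclideanSpace ℝ (Fin d)) => H' (ξ + τ • x))
    (bound := bound) (x₀ := (0:ℝ)) (Metric.ball_mem_nhds (0:ℝ) one_pos) ?_ ?_ ?_ hb hbi hder).2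
  · have h2 : (fun τ : ℝ => ∫ ξ, H (ξ + τ • x)) = fun _ => ∫ ξ, H ξ := by
      funext τ
      exact integral_add_right_eq_self H (τ • x)
    rw [h2] at h1
    have h3 := h1.unique (hasDerivAt_const (0:ℝ) (∫ ξ, H ξ))
    simpa using h3
  · refine Eventually.of_forall fun τ => ?_
    exact (hH.comp_add_right (τ • x)).aestronglyMeasurable
  · simpa using hH
  · simpa using hH'm

theorem ae_not_span (hd : 2 ≤ d) (x : EuclideanSpace ℝ (Fin d)) :
    ∀ᵐ ξ : EuclideanSpace ℝ (Fin d), ∀ τ : ℝ, ξ + τ • x ≠ 0 := by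
  have hne : (Submodule.span ℝ {x} : Submodule ℝ (EuclideanSpace ℝ (Fin d))) ≠ ⊤ := by
    intro h
    have h1 := finrank_span_le_card (R := ℝ) ({x} : Set (EuclideanSpace ℝ (Fin d)))
    rw [h, finrank_top, finrank_euclideanSpace, Fintype.card_fin] at h1
    simp at h1
    omega
  have h0 := Measure.addHaar_submodule (volume : Measure (EuclideanSpace ℝ (Fin d))) _ hne
  have h1 : ∀ᵐ ξ : EuclideanSpace ℝ (Fin d), ξ ∉ (Submodule.span ℝ {x} : Set _) := by
    rw [ae_iff]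
    simpa using h0
  filter_upwards [h1] with ξ hξ τ h
  apply hξ
  have : ξ = (-τ) • x := by
    rw [neg_smul]
    exact eq_neg_of_add_eq_zero_left h
  rw [this]
  exact Submodule.smul_mem _ _ (Submodule.mem_span_singleton_self x)

theorem hasDerivAt_norm_line {ξ x : EuclideanSpace ℝ (Fin d)} {τ : ℝ} (h : ξ + τ • x ≠ 0) :
    HasDerivAt (fun τ : ℝ => ‖ξ + τ • x‖) (inner ℝ (ξ + τ • x) x / ‖ξ + τ • x‖) τ := by
  have h1 : HasDerivAt (fun τ : ℝ => ξ + τ • x) x τ := by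
    have := ((hasDerivAt_id τ).smul_const x).const_add ξ
    simpa using this
  have h2 := h1.norm_sq
  have h3 := h2.sqrt (by
    have : 0 < ‖ξ + τ • x‖ := norm_pos_iff.mpr h
    positivity)
  have h4 : (fun τ : ℝ => √(‖ξ + τ • x‖ ^ 2)) = fun τ : ℝ => ‖ξ + τ • x‖ := by
    funext τ
    exact Real.sqrt_sq (norm_nonneg _)
  rw [h4] at h3
  convert! h3 using 1
  rw [Real.sqrt_sq (norm_nonneg _)]
  have : 0 < ‖ξ + τ • x‖ := norm_pos_iff.mpr h
  field_simp

theorem hasDerivAt_A_line (l : ℂ) (y : EuclideanSpace ℝ (Fin d))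
    {ξ x : EuclideanSpace ℝ (Fin d)} {τ : ℝ} (h : ξ + τ • x ≠ 0) :
    HasDerivAt (fun τ : ℝ => A l y (ξ + τ • x))
      (-l * ((inner ℝ (ξ + τ • x) x / ‖ξ + τ • x‖ : ℝ) : ℂ) + Complex.I * ((inner ℝ y x : ℝ) : ℂ))
      τ := by
  have h1 := ((hasDerivAt_norm_line h).ofReal_comp).const_mul (-l)
  have h2 : HasDerivAt (fun τ : ℝ => inner ℝ y (ξ + τ • x)) (inner ℝ y x) τ := by
    have : (fun τ : ℝ => (inner ℝ y (ξ + τ • x) : ℝ)) =
        fun τ => inner ℝ y ξ + τ * inner ℝ y x := by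
      funext τ
      rw [inner_add_right, inner_smul_right]
    rw [this]
    have := ((hasDerivAt_id τ).mul_const (inner ℝ y x : ℝ)).const_add (inner ℝ y ξ : ℝ)
    simpa using this
  have h3 := (h2.ofReal_comp).const_mul Complex.I
  exact h1.add h3

/-- derivative of the direction -/
noncomputable def dirn (l : ℂ) (y x ξ : EuclideanSpace ℝ (Fin d)) : ℂ :=
  -l * ((inner ℝ ξ x / ‖ξ‖ : ℝ) : ℂ) + Complex.I * ((inner ℝ y x : ℝ) : ℂ)

theorem dirn_norm_le (l : ℂ) (y x ξ : EuclideanSpace ℝ (Fin d)) :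
    ‖dirn l y x ξ‖ ≤ (‖l‖ + ‖y‖) * ‖x‖ := by
  unfold dirn
  refine (norm_add_le _ _).trans ?_
  rw [norm_mul, norm_mul, norm_neg, Complex.norm_I, one_mul, Complex.norm_real, Complex.norm_real,
    add_mul]
  refine add_le_add ?_ (norm_inner_le_norm y x)
  refine mul_le_mul_of_nonneg_left ?_ (norm_nonneg _)
  rw [norm_div, norm_norm]
  rcases eq_or_ne ξ 0 with rfl | hξ
  · simp
  · rw [div_le_iff₀ (norm_pos_iff.mpr hξ), mul_comm]
    exact norm_inner_le_norm ξ x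

theorem dirn_measurable (l : ℂ) (y x : EuclideanSpace ℝ (Fin d)) :
    Measurable (dirn l y x) := by
  unfold dirn
  fun_prop

theorem exp_bound {l : ℂ} (hl : 0 < l.re) (y x ξ : EuclideanSpace ℝ (Fin d)) {τ : ℝ}
    (hτ : τ ∈ Metric.ball (0:ℝ) 1) :
    ‖Complex.exp (A l y (ξ + τ • x))‖ ≤ Real.exp (l.re * ‖x‖) * Real.exp (-l.re * ‖ξ‖) := by
  rw [Complex.norm_exp, A_re, ← Real.exp_add]
  apply Real.exp_le_exp.mpr
  rw [Metric.mem_ball, dist_zero_right, Real.norm_eq_abs] at hτ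
  have h1 : ‖ξ‖ ≤ ‖ξ + τ • x‖ + ‖x‖ := by
    calc ‖ξ‖ = ‖(ξ + τ • x) - τ • x‖ := by simp
      _ ≤ ‖ξ + τ • x‖ + ‖τ • x‖ := norm_sub_le _ _
      _ ≤ ‖ξ + τ • x‖ + ‖x‖ := by
        rw [norm_smul, Real.norm_eq_abs]
        nlinarith [norm_nonneg x]
  nlinarith

theorem norm_line_le (x ξ : EuclideanSpace ℝ (Fin d)) {τ : ℝ}
    (hτ : τ ∈ Metric.ball (0:ℝ) 1) : ‖ξ + τ • x‖ ≤ ‖ξ‖ + ‖x‖ := by
  rw [Metric.mem_ball, dist_zero_right, Real.norm_eq_abs] at hτ
  refine (norm_add_le _ _).trans ?_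
  rw [norm_smul, Real.norm_eq_abs]
  nlinarith [norm_nonneg x]

theorem integrable_exp0 (hd : 2 ≤ d) {a : ℝ} (ha : 0 < a) :
    Integrable (fun ξ : EuclideanSpace ℝ (Fin d) => Real.exp (-a * ‖ξ‖)) := by
  have := integrable_pow_exp hd (m := 0) (a := a)
    (by have : (2:ℝ) ≤ d := by exact_mod_cast hd
        linarith) ha
  simpa using this

theorem integrable_exp1 (hd : 2 ≤ d) {a : ℝ} (ha : 0 < a) :
    Integrable (fun ξ : EuclideanSpace ℝ (Fin d) => ‖ξ‖ * Real.exp (-a * ‖ξ‖)) := by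
  have := integrable_pow_exp hd (m := 1) (a := a)
    (by have : (2:ℝ) ≤ d := by exact_mod_cast hd
        linarith) ha
  simpa using this

/-- translation identity, order 0 -/
theorem translation0 (hd : 2 ≤ d) {l : ℂ} (hl : 0 < l.re) (y x : EuclideanSpace ℝ (Fin d)) :
    ∫ ξ : EuclideanSpace ℝ (Fin d), dirn l y x ξ * Complex.exp (A l y ξ) = 0 := by
  refine translation_aux (fun ξ => Complex.exp (A l y ξ))
    (fun ξ => dirn l y x ξ * Complex.exp (A l y ξ)) x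
    (fun ξ => ((‖l‖ + ‖y‖) * ‖x‖) * (Real.exp (l.re * ‖x‖) * Real.exp (-l.re * ‖ξ‖)))
    ?_ ?_ ?_ ?_ ?_
  · have := integrable_exp hd (m := 0) (by have : (2:ℝ) ≤ d := by exact_mod_cast hd
                                           linarith) hl y
    simpa using this
  · exact (dirn_measurable l y x).aestronglyMeasurable.mul
      (Complex.continuous_exp.comp (A_continuous l y)).aestronglyMeasurable
  · refine Eventually.of_forall fun ξ τ hτ => ?_
    rw [norm_mul]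
    exact mul_le_mul (dirn_norm_le _ _ _ _) (exp_bound hl y x ξ hτ) (norm_nonneg _) (by positivity)
  · exact ((integrable_exp0 hd hl).const_mul _).const_mul _
  · filter_upwards [ae_not_span hd x] with ξ hξ τ _
    have h1 := (hasDerivAt_A_line l y (hξ τ)).cexp
    convert! h1 using 1
    unfold dirn
    ring

/-- translation identity, order 1 -/
theorem translation1 (hd : 2 ≤ d) {l : ℂ} (hl : 0 < l.re) (y x : EuclideanSpace ℝ (Fin d)) :
    ∫ ξ : EuclideanSpace ℝ (Fin d),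
      (((inner ℝ ξ x / ‖ξ‖ : ℝ) : ℂ) + (‖ξ‖ : ℂ) * dirn l y x ξ) * Complex.exp (A l y ξ) = 0 := by
  refine translation_aux (fun ξ => (‖ξ‖ : ℂ) * Complex.exp (A l y ξ))
    (fun ξ => (((inner ℝ ξ x / ‖ξ‖ : ℝ) : ℂ) + (‖ξ‖ : ℂ) * dirn l y x ξ) *
      Complex.exp (A l y ξ)) x
    (fun ξ => (‖x‖ + (‖ξ‖ + ‖x‖) * ((‖l‖ + ‖y‖) * ‖x‖)) *
      (Real.exp (l.re * ‖x‖) * Real.exp (-l.re * ‖ξ‖)))
    ?_ ?_ ?_ ?_ ?_
  · have := integrable_exp hd (m := 1) (by have : (2:ℝ) ≤ d := by exact_mod_cast hd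
                                           linarith) hl y
    simpa using this
  · refine AEStronglyMeasurable.mul ?_
      (Complex.continuous_exp.comp (A_continuous l y)).aestronglyMeasurable
    refine Measurable.aestronglyMeasurable ?_
    have := dirn_measurable l y x
    fun_prop
  · refine Eventually.of_forall fun ξ τ hτ => ?_
    rw [norm_mul]
    refine mul_le_mul ?_ (exp_bound hl y x ξ hτ) (norm_nonneg _) (by positivity)
    refine (norm_add_le _ _).trans (add_le_add ?_ ?_)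
    · rw [Complex.norm_real, norm_div, norm_norm]
      rcases eq_or_ne (ξ + τ • x) 0 with h | h
      · rw [h]; simp
      · rw [div_le_iff₀ (norm_pos_iff.mpr h), mul_comm]
        exact norm_inner_le_norm _ x
    · rw [norm_mul, Complex.norm_real, norm_norm]
      exact mul_le_mul (norm_line_le x ξ hτ) (dirn_norm_le _ _ _ _) (norm_nonneg _) (by positivity)
  · have h1 := (integrable_exp0 hd hl).const_mul
      ((‖x‖ + ‖x‖ * ((‖l‖ + ‖y‖) * ‖x‖)) * Real.exp (l.re * ‖x‖))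
    have h2 := (integrable_exp1 hd hl).const_mul
      (((‖l‖ + ‖y‖) * ‖x‖) * Real.exp (l.re * ‖x‖))
    refine (h1.add h2).congr (Eventually.of_forall fun ξ => ?_)
    simp only [Pi.add_apply]
    ring
  · filter_upwards [ae_not_span hd x] with ξ hξ τ _
    have h1 := (hasDerivAt_A_line l y (hξ τ)).cexp
    have h2 := ((hasDerivAt_norm_line (hξ τ)).ofReal_comp).mul h1
    convert! h2 using 1
    unfold dirn
    ring

end Pool.Agent.ConeMax
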