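import Pool.Agent.ConeMax.Weight

set_option autoImplicit false
set_option linter.style.haveILetI false

open MeasureTheory Filter Topology Set

namespace Pool.Agent.ConeMax

variable {d : ℕ}

/-- the weight -/
noncomputable def rho (k t q : ℝ) : ℝ := Nq t q ^ (-k)

theorem rho_nonneg (k : ℝ) {t q : ℝ} (hq : 0 ≤ q) : 0 ≤ rho k t q :=
  Real.rpow_nonneg (Nq_pos hq).le _

theorem rho_pos (k : ℝ) {t q : ℝ} (hq : 0 ≤ q) : 0 < rho k t q :=
  Real.rpow_pos_of_pos (Nq_pos hq) _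

theorem hasDerivAt_Nq_t (t q : ℝ) :
    HasDerivAt (fun t => Nq t q) (4 * t * (1 + t ^ 2 - q)) t := by
  unfold Nq
  have h1 := hasDerivAt_pow 2 t
  have h2 := (((h1.const_sub 1).add_const q).pow 2).add (h1.const_mul 4)
  convert! h2 using 1
  push_cast
  ring

theorem hasDerivAt_Nq_q (t q : ℝ) :
    HasDerivAt (fun q => Nq t q) (2 * (1 - t ^ 2 + q)) q := by
  unfold Nq
  have h2 := (((hasDerivAt_id q).const_add (1 - t ^ 2)).pow 2).add_const (4 * t ^ 2)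
  convert! h2 using 1
  simp

theorem hasDerivAt_rho_t (k : ℝ) {t q : ℝ} (hq : 0 ≤ q) :
    HasDerivAt (fun t => rho k t q) (rho k t q * (-k * (4 * t * (1 + t ^ 2 - q)) / Nq t q)) t := by
  unfold rho
  have h := (hasDerivAt_Nq_t t q).rpow_const (p := -k) (Or.inl (Nq_pos hq).ne')
  convert! h using 1
  rw [Real.rpow_sub_one (Nq_pos hq).ne']
  have := (Nq_pos (t := t) hq).ne'
  field_simp

theorem hasDerivAt_rho_q (k : ℝ) {t q : ℝ} (hq : 0 ≤ q) :
    HasDerivAt (fun q => rho k t q) (rho k t q * (-k * (2 * (1 - t ^ 2 + q)) / Nq t q)) q := by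
  unfold rho
  have h := (hasDerivAt_Nq_q t q).rpow_const (p := -k) (Or.inl (Nq_pos hq).ne')
  convert! h using 1
  rw [Real.rpow_sub_one (Nq_pos hq).ne']
  have := (Nq_pos (t := t) hq).ne'
  field_simp

theorem int_of_bound {k : ℝ} (hk : (d:ℝ) + 1 < 2 * k) (R : ℝ × EuclideanSpace ℝ (Fin d) → ℝ)
    (hm : Measurable R) (c : ℝ) (hb : ∀ z, |R z| ≤ c * √(wq z.1 (‖z.2‖ ^ 2))) :
    Integrable (fun z : ℝ × EuclideanSpace ℝ (Fin d) => rho k z.1 (‖z.2‖ ^ 2) * R z) := by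
  refine ((integrable_W hk).const_mul c).mono' ?_ ?_
  · apply Measurable.aestronglyMeasurable
    unfold rho Nq
    fun_prop
  · refine Eventually.of_forall fun z => ?_
    rw [norm_mul, Real.norm_eq_abs, Real.norm_eq_abs, abs_of_nonneg (rho_nonneg k (by positivity))]
    have h1 := hb z
    have h2 := rho_nonneg k (t := z.1) (q := ‖z.2‖ ^ 2) (by positivity)
    calc rho k z.1 (‖z.2‖ ^ 2) * |R z|
        ≤ rho k z.1 (‖z.2‖ ^ 2) * (c * √(wq z.1 (‖z.2‖ ^ 2))) := by gcongr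
      _ = _ := by unfold rho; ring

section bounds

variable {t q y : ℝ}

theorem bsq (t q : ℝ) : (1 + t ^ 2 - q) ^ 2 = Nq t q - 4 * q := by unfold Nq; ring

theorem tsq_le (hq : 0 ≤ q) : t ^ 2 ≤ Nq t q := by
  refine le_trans ?_ (wq_le_Nq hq)
  unfold wq; linarith

theorem q_le (hq : 0 ≤ q) : q ≤ Nq t q := by
  refine le_trans ?_ (wq_le_Nq hq)
  unfold wq; nlinarith [sq_nonneg t]

theorem abs_div_N_le {u : ℝ} (hq : 0 ≤ q) (h : u ^ 2 ≤ Nq t q ^ 2) : |u / Nq t q| ≤ 1 := by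
  have hN := Nq_pos (t := t) hq
  rw [abs_div, abs_of_pos hN, div_le_one hN]
  exact abs_le_of_sq_le_sq h hN.le

theorem u1_le (hq : 0 ≤ q) : |t * (1 + t ^ 2 - q) / Nq t q| ≤ 1 := by
  apply abs_div_N_le hq
  rw [mul_pow, bsq, pow_two (Nq t q)]
  have hN := Nq_pos (t := t) hq
  exact mul_le_mul (tsq_le hq) (by linarith) (by rw [← bsq]; positivity) hN.le

theorem u2_le (hq : 0 ≤ q) : |wq t q / Nq t q| ≤ 1 := by
  have hN := Nq_pos (t := t) hq
  have h1 := one_le_wq (t := t) hq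
  rw [abs_div, abs_of_pos hN, div_le_one hN, abs_of_pos (by linarith)]
  exact wq_le_Nq hq

theorem u3_le (hq : 0 ≤ q) : |t ^ 2 / Nq t q| ≤ 1 := by
  have hN := Nq_pos (t := t) hq
  rw [abs_div, abs_of_pos hN, div_le_one hN, abs_of_nonneg (sq_nonneg t)]
  exact tsq_le hq

theorem asq_le (t q : ℝ) : (1 - t ^ 2 + q) ^ 2 ≤ Nq t q := by
  unfold Nq; nlinarith [sq_nonneg t]

theorem u4_le (hq : 0 ≤ q) (hy : y ^ 2 ≤ q) : |y * (1 - t ^ 2 + q) / Nq t q| ≤ 1 := by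
  apply abs_div_N_le hq
  rw [mul_pow, pow_two (Nq t q)]
  have hN := Nq_pos (t := t) hq
  exact mul_le_mul (hy.trans (q_le hq)) (asq_le t q) (by positivity) hN.le

theorem u5_le (hq : 0 ≤ q) : |(1 - t ^ 2 + q) / Nq t q| ≤ 1 := by
  apply abs_div_N_le hq
  refine (asq_le t q).trans ?_
  nlinarith [one_le_Nq (t := t) hq]

theorem u6_le (hq : 0 ≤ q) : |(1 + t ^ 2 - q) / Nq t q| ≤ 1 := by
  apply abs_div_N_le hq
  rw [bsq]
  nlinarith [one_le_Nq (t := t) hq]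

theorem u7_le (hq : 0 ≤ q) (hy : y ^ 2 ≤ q) : |y ^ 2 / Nq t q| ≤ 1 := by
  have hN := Nq_pos (t := t) hq
  rw [abs_div, abs_of_pos hN, div_le_one hN, abs_of_nonneg (sq_nonneg y)]
  exact hy.trans (q_le hq)

theorem one_le_sw (hq : 0 ≤ q) : 1 ≤ √(wq t q) := by
  rw [← Real.sqrt_one]
  exact Real.sqrt_le_sqrt (one_le_wq hq)

theorem t_le_sw (hq : 0 ≤ q) : |t| ≤ √(wq t q) := by
  apply Real.abs_le_sqrt
  unfold wq; linarith

theorem y_le_sw (hy : y ^ 2 ≤ q) : |y| ≤ √(wq t q) := by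
  apply Real.abs_le_sqrt
  unfold wq; nlinarith [sq_nonneg t]

end bounds

theorem coord_sq_le (x : EuclideanSpace ℝ (Fin d)) (j : Fin d) : (x j) ^ 2 ≤ ‖x‖ ^ 2 := by
  rw [EuclideanSpace.real_norm_sq_eq]
  exact Finset.single_le_sum (f := fun i => (x i) ^ 2) (fun i _ => sq_nonneg _) (Finset.mem_univ j)

theorem mul_le_of_abs {a b s : ℝ} (ha : |a| ≤ s) (hb : |b| ≤ 1) : |a * b| ≤ s := by
  rw [abs_mul]
  have h1 := abs_nonneg a
  have h2 := abs_nonneg b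
  nlinarith

end Pool.Agent.ConeMax
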