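import Pool.Agent.ConeMax.Final

set_option autoImplicit false
set_option linter.style.haveILetI false

open MeasureTheory Filter Topology Set

namespace Pool.Agent.ConeMax

variable {d : ℕ}

/-- the perturbed datum -/
noncomputable def gdat (s ε : ℝ) (ξ : EuclideanSpace ℝ (Fin d)) : ℂ :=
  (((‖ξ‖ ^ (2 * s - 1) * Real.exp (-‖ξ‖) * (1 + ε * ‖ξ‖ ^ 2)) : ℝ) : ℂ)

theorem exp_A_lam (t : ℝ) (x ξ : EuclideanSpace ℝ (Fin d)) :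
    Complex.exp (A (lam t 1) x ξ) =
      Complex.exp (Complex.I * ((t * ‖ξ‖ + inner ℝ x ξ : ℝ) : ℂ)) *
        ((Real.exp (-‖ξ‖) : ℝ) : ℂ) := by
  have h := A_lam t 1 x ξ
  rw [one_smul] at h
  rw [h, Complex.exp_add]
  push_cast
  rw [one_mul, mul_comm]

theorem weight_mul {s r : ℝ} (hr : 0 < r) : r ^ (-2 * s) * r ^ (2 * s - 1) = r⁻¹ := by
  rw [← Real.rpow_add hr, show -2 * s + (2 * s - 1) = -1 by ring, Real.rpow_neg_one]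

theorem weight_gdat {s ε : ℝ} {ξ : EuclideanSpace ℝ (Fin d)} (hξ : ξ ≠ 0) :
    ((‖ξ‖ ^ (-2 * s) : ℝ) : ℂ) * gdat s ε ξ =
      (((‖ξ‖⁻¹ : ℝ) : ℂ) + (ε:ℂ) * (‖ξ‖ : ℂ)) * ((Real.exp (-‖ξ‖) : ℝ) : ℂ) := by
  have h0 : 0 < ‖ξ‖ := norm_pos_iff.mpr hξ
  have h1 := weight_mul (s := s) h0
  unfold gdat
  rw [← Complex.ofReal_mul, ← Complex.ofReal_mul, ← Complex.ofReal_add, ← Complex.ofReal_mul]
  congr 1
  have h2 : ‖ξ‖ ^ (-2 * s) * (‖ξ‖ ^ (2 * s - 1) * Real.exp (-‖ξ‖) * (1 + ε * ‖ξ‖ ^ 2)) =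
      (‖ξ‖ ^ (-2 * s) * ‖ξ‖ ^ (2 * s - 1)) * (Real.exp (-‖ξ‖) * (1 + ε * ‖ξ‖ ^ 2)) := by ring
  rw [h2, h1]
  field_simp

theorem transform_eq (hd : 2 ≤ d) (s ε t : ℝ) (x : EuclideanSpace ℝ (Fin d)) :
    ∫ ξ : EuclideanSpace ℝ (Fin d),
      Complex.exp (Complex.I * ((t * ‖ξ‖ + inner ℝ x ξ : ℝ) : ℂ)) *
        ((‖ξ‖ ^ (-2 * s) : ℝ) : ℂ) * gdat s ε ξ =
    U0 (lam t 1) x + ε * U2 (lam t 1) x := by
  have hl : 0 < (lam t 1).re := by rw [lam_re]; exact one_pos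
  unfold U0 U2
  rw [← integral_const_mul, ← integral_add (int0 hd hl x) ((int2 hd hl x).const_mul _)]
  refine integral_congr_ae ?_
  filter_upwards [ae_ne_zero hd] with ξ hξ
  rw [mul_assoc, weight_gdat hξ, exp_A_lam]
  ring

theorem gdat_integrable (hd : 2 ≤ d) (s ε : ℝ) :
    Integrable (fun ξ : EuclideanSpace ℝ (Fin d) =>
      ((‖ξ‖ ^ (-2 * s) : ℝ) : ℂ) * gdat s ε ξ) := by
  have hl : 0 < (lam 0 1).re := by rw [lam_re]; exact one_pos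
  refine ((int0 hd hl 0).add ((int2 hd hl 0).const_mul (ε:ℂ))).congr ?_
  filter_upwards [ae_ne_zero hd] with ξ hξ
  rw [weight_gdat hξ]
  simp only [Pi.add_apply]
  rw [exp_A_lam]
  simp
  ring

/-- the multiplier -/
noncomputable def mm (d : ℕ) (t : ℝ) (x : EuclideanSpace ℝ (Fin d)) : ℂ :=
  ((d:ℂ) - 1) * (((d:ℂ) + 1) * (lam t 1 * (Z (lam t 1) x)⁻¹) ^ 2 - (Z (lam t 1) x)⁻¹)

theorem Z_inv (t : ℝ) (x : EuclideanSpace ℝ (Fin d)) :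
    (Z (lam t 1) x)⁻¹ = (((1 - t ^ 2 + ‖x‖ ^ 2) / Nq t (‖x‖ ^ 2) : ℝ) : ℂ) +
      Complex.I * ((2 * t / Nq t (‖x‖ ^ 2) : ℝ) : ℂ) := by
  have hN : (Nq t (‖x‖ ^ 2)) ≠ 0 := (Nq_pos (by positivity)).ne'
  have hN' : ((Nq t (‖x‖ ^ 2) : ℝ) : ℂ) ≠ 0 := by exact_mod_cast hN
  rw [eq_comm]
  apply eq_inv_of_mul_eq_one_left
  rw [Complex.ofReal_div, Complex.ofReal_div]
  have h1 : (((1 - t ^ 2 + ‖x‖ ^ 2 : ℝ) : ℂ) / ((Nq t (‖x‖ ^ 2) : ℝ) : ℂ) +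
      Complex.I * (((2 * t : ℝ) : ℂ) / ((Nq t (‖x‖ ^ 2) : ℝ) : ℂ))) * Z (lam t 1) x =
      ((((1 - t ^ 2 + ‖x‖ ^ 2 : ℝ) : ℂ) + Complex.I * ((2 * t : ℝ) : ℂ)) * Z (lam t 1) x) /
        ((Nq t (‖x‖ ^ 2) : ℝ) : ℂ) := by
    field_simp
  rw [h1, div_eq_one_iff_eq hN']
  unfold Z lam Nq
  push_cast
  linear_combination ((1 - (t:ℂ) ^ 2 + (‖x‖:ℂ) ^ 2 + 2 * Complex.I * t) * (t:ℂ) ^ 2 -
    4 * (t:ℂ) ^ 2) * Complex.I_sq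

theorem re_aux (D a b c e : ℝ) :
    (((D:ℂ) - 1) * (((D:ℂ) + 1) * ((a:ℂ) + Complex.I * (b:ℂ)) ^ 2 -
      ((c:ℂ) + Complex.I * (e:ℂ)))).re = (D - 1) * ((D + 1) * (a ^ 2 - b ^ 2) - c) := by
  have h : (((D:ℂ) - 1) * (((D:ℂ) + 1) * ((a:ℂ) + Complex.I * (b:ℂ)) ^ 2 -
      ((c:ℂ) + Complex.I * (e:ℂ)))) = (((D - 1) * ((D + 1) * (a ^ 2 - b ^ 2) - c) : ℝ) : ℂ) +
      Complex.I * (((D - 1) * ((D + 1) * (2 * a * b) - e) : ℝ) : ℂ) := by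
    push_cast
    linear_combination (((D:ℂ) - 1) * ((D:ℂ) + 1) * (b:ℂ) ^ 2) * Complex.I_sq
  rw [h, Complex.add_re, Complex.ofReal_re, Complex.mul_re, Complex.I_re, Complex.I_im,
    Complex.ofReal_im]
  ring

theorem mm_re (t : ℝ) (x : EuclideanSpace ℝ (Fin d)) : (mm d t x).re = RR d t (‖x‖ ^ 2) := by
  have hv : lam t 1 * (Z (lam t 1) x)⁻¹ = ((wq t (‖x‖ ^ 2) / Nq t (‖x‖ ^ 2) : ℝ) : ℂ) +
      Complex.I * ((t * (1 + t ^ 2 - ‖x‖ ^ 2) / Nq t (‖x‖ ^ 2) : ℝ) : ℂ) := by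
    rw [Z_inv]
    unfold lam wq
    push_cast
    linear_combination (-(2 * (t:ℂ) ^ 2 / ((Nq t (‖x‖ ^ 2) : ℝ) : ℂ))) * Complex.I_sq
  unfold mm
  rw [hv, Z_inv, show (d:ℂ) = ((d:ℝ):ℂ) by simp, re_aux]
  unfold RR
  rw [div_pow, div_pow]
  ring

theorem U2_eq (hd : 2 ≤ d) (t : ℝ) (x : EuclideanSpace ℝ (Fin d)) :
    U2 (lam t 1) x = mm d t x * U0 (lam t 1) x := by
  have hl : 0 < (lam t 1).re := by rw [lam_re]; exact one_pos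
  have hZ := Z_ne_zero hl x
  have h := Z_U2 hd hl x
  have h2 : Z (lam t 1) x ^ 2 ≠ 0 := pow_ne_zero 2 hZ
  apply mul_left_cancel₀ h2
  rw [h]
  unfold mm
  field_simp

theorem lamU0_norm (hd : 2 ≤ d) (t : ℝ) (x : EuclideanSpace ℝ (Fin d)) {p k : ℝ}
    (hk : k = ((d:ℝ) - 1) * p / 4) :
    ‖U0 (lam t 1) x‖ ^ p = ‖U0 (1:ℂ) (0 : EuclideanSpace ℝ (Fin d))‖ ^ p *
      rho k t (‖x‖ ^ 2) := by
  have h := normU0 hd t x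
  have hN : 0 < Nq t (‖x‖ ^ 2) := Nq_pos (by positivity)
  change ‖U0 (lam t 1) x‖ ^ 2 * (Nq t (‖x‖ ^ 2)) ^ (((d:ℝ) - 1) / 2) = _ at h
  have h1 : ‖U0 (lam t 1) x‖ ^ 2 = ‖U0 (1:ℂ) (0 : EuclideanSpace ℝ (Fin d))‖ ^ 2 *
      (Nq t (‖x‖ ^ 2)) ^ (-(((d:ℝ) - 1) / 2)) := by
    rw [← h, mul_assoc, ← Real.rpow_add hN, add_neg_cancel, Real.rpow_zero, mul_one]
  have h2 : ∀ a : ℝ, 0 ≤ a → a ^ p = (a ^ 2) ^ (p / 2) := by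
    intro a ha
    rw [← Real.rpow_natCast, ← Real.rpow_mul ha]
    congr 1
    push_cast
    ring
  rw [h2 _ (norm_nonneg _), h1, Real.mul_rpow (by positivity) (Real.rpow_nonneg hN.le _),
    ← h2 _ (norm_nonneg _)]
  congr 1
  unfold rho
  rw [← Real.rpow_mul hN.le]
  congr 1
  rw [hk]
  ring

theorem C0_pos (hd : 2 ≤ d) : 0 < ‖U0 (1:ℂ) (0 : EuclideanSpace ℝ (Fin d))‖ := by
  rw [norm_pos_iff]
  have h1 : U0 (1:ℂ) (0 : EuclideanSpace ℝ (Fin d)) =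
      ((∫ ξ : EuclideanSpace ℝ (Fin d), ‖ξ‖ ^ (-1:ℝ) * Real.exp (-1 * ‖ξ‖) : ℝ) : ℂ) := by
    refine Eq.trans ?_ (integral_ofReal (𝕜 := ℂ))
    unfold U0 A
    refine integral_congr_ae (Eventually.of_forall fun ξ => ?_)
    simp [Real.rpow_neg_one]
  have h2d := two_le_cast hd
  rw [h1, integral_pow_exp hd (by linarith) one_pos]
  have h3 : 0 < (volume : Measure (EuclideanSpace ℝ (Fin d))).real (Metric.ball 0 1) :=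
    ENNReal.toReal_pos (Metric.measure_ball_pos _ _ one_pos).ne' measure_ball_lt_top.ne
  have h4 : 0 < Real.Gamma (-1 + (d:ℝ)) := Real.Gamma_pos_of_pos (by linarith)
  have h5 : (0:ℝ) < d := by linarith
  rw [nsmul_eq_mul, Complex.ofReal_ne_zero]
  have h6 : (0:ℝ) < (1 / 1) ^ (-1 + (d:ℝ)) := by positivity
  positivity

/-- pointwise lower bound -/
theorem pointwise (hd : 2 ≤ d) (ε t : ℝ) (x : EuclideanSpace ℝ (Fin d)) {p k : ℝ} (hp : 1 ≤ p)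
    (hk : k = ((d:ℝ) - 1) * p / 4) :
    ‖U0 (1:ℂ) (0 : EuclideanSpace ℝ (Fin d))‖ ^ p *
      (rho k t (‖x‖ ^ 2) * (1 + p * ε * RR d t (‖x‖ ^ 2))) ≤
    ‖U0 (lam t 1) x + ε * U2 (lam t 1) x‖ ^ p := by
  have h1 : U0 (lam t 1) x + ε * U2 (lam t 1) x = U0 (lam t 1) x * (1 + ε * mm d t x) := by
    rw [U2_eq hd]; ring
  rw [h1, norm_mul, Real.mul_rpow (norm_nonneg _) (norm_nonneg _), lamU0_norm hd t x hk,
    mul_assoc (‖U0 (1:ℂ) (0 : EuclideanSpace ℝ (Fin d))‖ ^ p) (rho k t (‖x‖ ^ 2))]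
  have h2 : 0 ≤ ‖U0 (1:ℂ) (0 : EuclideanSpace ℝ (Fin d))‖ ^ p := by positivity
  have h3 : 0 ≤ rho k t (‖x‖ ^ 2) := rho_nonneg k (by positivity)
  refine mul_le_mul_of_nonneg_left (mul_le_mul_of_nonneg_left ?_ h3) h2
  have h4 : (1 + (ε:ℂ) * mm d t x).re = 1 + ε * RR d t (‖x‖ ^ 2) := by
    rw [Complex.add_re, Complex.one_re, Complex.re_ofReal_mul, mm_re]
  have h5 : 1 + ε * RR d t (‖x‖ ^ 2) ≤ ‖1 + (ε:ℂ) * mm d t x‖ := by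
    rw [← h4]; exact Complex.re_le_norm _
  rcases le_or_gt (-1) (ε * RR d t (‖x‖ ^ 2)) with h | h
  · have h6 := one_add_mul_self_le_rpow_one_add h hp
    have h7 : (1 + ε * RR d t (‖x‖ ^ 2)) ^ p ≤ ‖1 + (ε:ℂ) * mm d t x‖ ^ p :=
      Real.rpow_le_rpow (by linarith) h5 (by linarith)
    linarith [h6, h7, mul_assoc p ε (RR d t (‖x‖ ^ 2))]
  · have h6 : (0:ℝ) ≤ ‖1 + (ε:ℂ) * mm d t x‖ ^ p := by positivity
    have h7 : p * (ε * RR d t (‖x‖ ^ 2)) ≤ p * (-1) := mul_le_mul_of_nonneg_left h.le (by linarith)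
    linarith [mul_assoc p ε (RR d t (‖x‖ ^ 2))]

theorem ofReal_integral_le {α : Type*} [MeasurableSpace α] {μ : Measure α} {f : α → ℝ}
    (hf : Integrable f μ) : ENNReal.ofReal (∫ a, f a ∂μ) ≤ ∫⁻ a, ENNReal.ofReal (f a) ∂μ := by
  rw [integral_eq_lintegral_pos_part_sub_lintegral_neg_part hf]
  refine (ENNReal.ofReal_le_ofReal (sub_le_self _ ENNReal.toReal_nonneg)).trans ?_
  exact ENNReal.ofReal_toReal_le

end Pool.Agent.ConeMax
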