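import Pool.Agent.ConeMax.Main

set_option autoImplicit false
set_option linter.style.haveILetI false

open MeasureTheory Filter Topology Set

namespace Pool.Agent.ConeMax

variable {d : ℕ}

theorem lower (hd : 2 ≤ d) (ε : ℝ) {p k : ℝ} (hp : 1 ≤ p)
    (hk : k = ((d:ℝ) - 1) * p / 4) (hk2 : (d:ℝ) + 1 < 2 * k) :
    ENNReal.ofReal (‖U0 (1:ℂ) (0 : EuclideanSpace ℝ (Fin d))‖ ^ p *
      (II d k (fun _ _ => 1) + p * ε * II d k (RR d))) ≤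
    ∫⁻ z : ℝ × EuclideanSpace ℝ (Fin d), ‖U0 (lam z.1 1) z.2 + ε * U2 (lam z.1 1) z.2‖ₑ ^ p := by
  have h1 : ‖U0 (1:ℂ) (0 : EuclideanSpace ℝ (Fin d))‖ ^ p *
      (II d k (fun _ _ => 1) + p * ε * II d k (RR d)) =
      ∫ z : ℝ × EuclideanSpace ℝ (Fin d), ‖U0 (1:ℂ) (0 : EuclideanSpace ℝ (Fin d))‖ ^ p *
      (rho k z.1 (‖z.2‖ ^ 2) * (1 + p * ε * RR d z.1 (‖z.2‖ ^ 2))) := by
    rw [integral_const_mul]
    congr 1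
    unfold II
    rw [← integral_const_mul, ← integral_add (by simpa using i1 hk2) ((iRR hk2).const_mul _)]
    refine integral_congr_ae (Eventually.of_forall fun z => ?_)
    simp only
    ring
  have hint : Integrable (fun z : ℝ × EuclideanSpace ℝ (Fin d) =>
      ‖U0 (1:ℂ) (0 : EuclideanSpace ℝ (Fin d))‖ ^ p *
      (rho k z.1 (‖z.2‖ ^ 2) * (1 + p * ε * RR d z.1 (‖z.2‖ ^ 2)))) := by
    refine Integrable.const_mul ?_ _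
    refine ((i1 hk2).add ((iRR hk2).const_mul (p * ε))).congr (Eventually.of_forall fun z => ?_)
    simp only [Pi.add_apply]
    ring
  rw [h1]
  refine (ofReal_integral_le hint).trans ?_
  refine lintegral_mono fun z => ?_
  have h2 := pointwise hd ε z.1 z.2 hp hk
  rw [← ofReal_norm, ENNReal.ofReal_rpow_of_nonneg (norm_nonneg _) (by linarith)]
  exact ENNReal.ofReal_le_ofReal h2

theorem exact0 (hd : 2 ≤ d) {p k : ℝ} (hp : 1 ≤ p)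
    (hk : k = ((d:ℝ) - 1) * p / 4) (hk2 : (d:ℝ) + 1 < 2 * k) :
    ∫⁻ z : ℝ × EuclideanSpace ℝ (Fin d), ‖U0 (lam z.1 1) z.2‖ₑ ^ p =
    ENNReal.ofReal (‖U0 (1:ℂ) (0 : EuclideanSpace ℝ (Fin d))‖ ^ p * II d k (fun _ _ => 1)) := by
  have h1 : ‖U0 (1:ℂ) (0 : EuclideanSpace ℝ (Fin d))‖ ^ p * II d k (fun _ _ => 1) =
      ∫ z : ℝ × EuclideanSpace ℝ (Fin d), ‖U0 (1:ℂ) (0 : EuclideanSpace ℝ (Fin d))‖ ^ p *
        rho k z.1 (‖z.2‖ ^ 2) := by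
    rw [integral_const_mul]
    unfold II
    simp
  rw [h1, ofReal_integral_eq_lintegral_ofReal ((i1 hk2).const_mul _)
    (Eventually.of_forall fun z => mul_nonneg (by positivity) (rho_nonneg k (by positivity)))]
  refine lintegral_congr fun z => ?_
  rw [← ofReal_norm, ENNReal.ofReal_rpow_of_nonneg (norm_nonneg _) (by linarith),
    lamU0_norm hd z.1 z.2 hk]

/-- radial moments -/
noncomputable def nn (d : ℕ) (s : ℝ) (i : ℕ) : ℝ :=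
  ∫ ξ : EuclideanSpace ℝ (Fin d), ‖ξ‖ ^ (2 * s - 2 + 2 * i) * Real.exp (-2 * ‖ξ‖)

theorem nn_int (hd : 2 ≤ d) {s : ℝ} (hs : 1 / 2 ≤ s) (i : ℕ) :
    Integrable (fun ξ : EuclideanSpace ℝ (Fin d) =>
      ‖ξ‖ ^ (2 * s - 2 + 2 * i) * Real.exp (-2 * ‖ξ‖)) := by
  have h2d := two_le_cast hd
  have hi : (0:ℝ) ≤ i := by positivity
  exact integrable_pow_exp hd (by linarith) two_pos

theorem nn_one (hd : 2 ≤ d) {s : ℝ} (hs : 1 / 2 ≤ s) :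
    nn d s 1 = (2 * s + d - 1) * (2 * s + d - 2) / 4 * nn d s 0 := by
  have h2d := two_le_cast hd
  unfold nn
  rw [integral_pow_exp hd (by push_cast; linarith) two_pos,
    integral_pow_exp hd (by push_cast; linarith) two_pos]
  have e1 : 2 * s - 2 + 2 * ((1:ℕ):ℝ) + (d:ℝ) = (2 * s - 2 + 2 * ((0:ℕ):ℝ) + (d:ℝ)) + 1 + 1 := by
    push_cast; ring
  rw [e1]
  set y : ℝ := 2 * s - 2 + 2 * ((0:ℕ):ℝ) + (d:ℝ) with hy
  have hy0 : y = 2 * s - 2 + d := by rw [hy]; push_cast; ring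
  have hypos : 0 < y := by rw [hy0]; linarith
  rw [Real.Gamma_add_one (by positivity), Real.Gamma_add_one hypos.ne',
    Real.rpow_add (by norm_num), Real.rpow_add (by norm_num), Real.rpow_one, hy0]
  ring

theorem nn_zero_pos (hd : 2 ≤ d) {s : ℝ} (hs : 1 / 2 ≤ s) : 0 < nn d s 0 := by
  have h2d := two_le_cast hd
  unfold nn
  rw [integral_pow_exp hd (by push_cast; linarith) two_pos]
  have h3 : 0 < (volume : Measure (EuclideanSpace ℝ (Fin d))).real (Metric.ball 0 1) :=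
    ENNReal.toReal_pos (Metric.measure_ball_pos _ _ one_pos).ne' measure_ball_lt_top.ne
  have h4 : 0 < Real.Gamma (2 * s - 2 + 2 * ((0:ℕ):ℝ) + (d:ℝ)) :=
    Real.Gamma_pos_of_pos (by push_cast; linarith)
  have h5 : (0:ℝ) < d := by linarith
  rw [nsmul_eq_mul]
  positivity

theorem l2_pt {s ε : ℝ} {ξ : EuclideanSpace ℝ (Fin d)} (hξ : ξ ≠ 0) :
      (((‖ξ‖ ^ (2 * s - 2 + 2 * ((0:ℕ):ℝ)) * Real.exp (-2 * ‖ξ‖)) +
          (2 * ε) * (‖ξ‖ ^ (2 * s - 2 + 2 * ((1:ℕ):ℝ)) * Real.exp (-2 * ‖ξ‖))) +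
          ε ^ 2 * (‖ξ‖ ^ (2 * s - 2 + 2 * ((2:ℕ):ℝ)) * Real.exp (-2 * ‖ξ‖))) =
      ‖gdat s ε ξ‖ ^ 2 * ‖ξ‖ ^ (-2 * s) := by
  have h0 : 0 < ‖ξ‖ := norm_pos_iff.mpr hξ
  unfold gdat
  rw [Complex.norm_real, Real.norm_eq_abs, sq_abs]
  have e1 : ‖ξ‖ ^ (2 * s - 2 + 2 * ((1:ℕ):ℝ)) = ‖ξ‖ ^ (2 * s - 2) * ‖ξ‖ ^ 2 := by
    rw [Real.rpow_add h0]; congr 1; norm_num
  have e2 : ‖ξ‖ ^ (2 * s - 2 + 2 * ((2:ℕ):ℝ)) = ‖ξ‖ ^ (2 * s - 2) * ‖ξ‖ ^ 4 := by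
    rw [Real.rpow_add h0]; congr 1
    rw [show 2 * ((2:ℕ):ℝ) = ((4:ℕ):ℝ) by norm_num, Real.rpow_natCast]
  have e3 : Real.exp (-2 * ‖ξ‖) = Real.exp (-‖ξ‖) * Real.exp (-‖ξ‖) := by
    rw [← Real.exp_add]; congr 1; ring
  have e4 : ‖ξ‖ ^ (2 * s - 2) = ‖ξ‖ ^ (2 * s - 1) * ‖ξ‖ ^ (2 * s - 1) * ‖ξ‖ ^ (-2 * s) := by
    rw [← Real.rpow_add h0, ← Real.rpow_add h0]; congr 1; ring
  have e5 : (2 * s - 2 + 2 * ((0:ℕ):ℝ)) = 2 * s - 2 := by push_cast; ring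
  rw [e5, e1, e2, e3, e4]
  ring

theorem l2_sum (hd : 2 ≤ d) {s : ℝ} (hs : 1 / 2 ≤ s) (ε : ℝ) :
    Integrable (fun ξ : EuclideanSpace ℝ (Fin d) => ‖gdat s ε ξ‖ ^ 2 * ‖ξ‖ ^ (-2 * s)) ∧
    nn d s 0 + 2 * ε * nn d s 1 + ε ^ 2 * nn d s 2 =
      ∫ ξ : EuclideanSpace ℝ (Fin d), ‖gdat s ε ξ‖ ^ 2 * ‖ξ‖ ^ (-2 * s) := by
  have ha : Integrable (fun ξ : EuclideanSpace ℝ (Fin d) =>
      (‖ξ‖ ^ (2 * s - 2 + 2 * ((0:ℕ):ℝ)) * Real.exp (-2 * ‖ξ‖)) +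
        (2 * ε) * (‖ξ‖ ^ (2 * s - 2 + 2 * ((1:ℕ):ℝ)) * Real.exp (-2 * ‖ξ‖))) :=
    (nn_int hd hs 0).add ((nn_int hd hs 1).const_mul _)
  have hae : (fun ξ : EuclideanSpace ℝ (Fin d) =>
        (((‖ξ‖ ^ (2 * s - 2 + 2 * ((0:ℕ):ℝ)) * Real.exp (-2 * ‖ξ‖)) +
          (2 * ε) * (‖ξ‖ ^ (2 * s - 2 + 2 * ((1:ℕ):ℝ)) * Real.exp (-2 * ‖ξ‖))) +
          ε ^ 2 * (‖ξ‖ ^ (2 * s - 2 + 2 * ((2:ℕ):ℝ)) * Real.exp (-2 * ‖ξ‖)))) =ᵐ[volume]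
      fun ξ => ‖gdat s ε ξ‖ ^ 2 * ‖ξ‖ ^ (-2 * s) := by
    filter_upwards [ae_ne_zero hd] with ξ hξ
    exact l2_pt hξ
  constructor
  · exact (ha.add ((nn_int hd hs 2).const_mul (ε ^ 2))).congr hae
  · rw [← integral_congr_ae hae, integral_add ha ((nn_int hd hs 2).const_mul _),
      integral_add (nn_int hd hs 0) ((nn_int hd hs 1).const_mul _), integral_const_mul,
      integral_const_mul]
    rfl

theorem l2_eq (hd : 2 ≤ d) {s : ℝ} (hs : 1 / 2 ≤ s) (ε : ℝ) :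
    ∫⁻ ξ : EuclideanSpace ℝ (Fin d), ENNReal.ofReal (‖gdat s ε ξ‖ ^ 2 * ‖ξ‖ ^ (-2 * s)) =
      ENNReal.ofReal (nn d s 0 + 2 * ε * nn d s 1 + ε ^ 2 * nn d s 2) := by
  obtain ⟨h1, h2⟩ := l2_sum hd hs ε
  rw [h2, ofReal_integral_eq_lintegral_ofReal h1]
  exact Eventually.of_forall fun ξ => by simp only [Pi.zero_apply]; positivity

theorem l2_nonneg (hd : 2 ≤ d) {s : ℝ} (hs : 1 / 2 ≤ s) (ε : ℝ) :
    0 ≤ nn d s 0 + 2 * ε * nn d s 1 + ε ^ 2 * nn d s 2 := by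
  rw [(l2_sum hd hs ε).2]
  exact integral_nonneg fun ξ => by simp only [Pi.zero_apply]; positivity

end Pool.Agent.ConeMax
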