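import Pool.Agent.ConeMax.Formula

set_option autoImplicit false
set_option linter.style.haveILetI false

open MeasureTheory Filter Topology Set

namespace Pool.Agent.ConeMax

variable {d : ℕ}

/-- the path `l(τ) = 1 - i τ t` -/
noncomputable def lam (t τ : ℝ) : ℂ := 1 - Complex.I * ((τ * t : ℝ) : ℂ)

theorem lam_re (t τ : ℝ) : (lam t τ).re = 1 := by
  simp [lam]

theorem A_lam (t τ : ℝ) (x ξ : EuclideanSpace ℝ (Fin d)) :
    A (lam t τ) (τ • x) ξ =
      ((-‖ξ‖ : ℝ) : ℂ) + (τ : ℂ) * (Complex.I * ((t * ‖ξ‖ + inner ℝ x ξ : ℝ) : ℂ)) := by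
  unfold A lam
  rw [inner_smul_left]
  simp only [conj_trivial]
  push_cast
  ring

theorem hasDerivAt_G (hd : 2 ≤ d) (t : ℝ) (x : EuclideanSpace ℝ (Fin d)) (τ : ℝ) :
    HasDerivAt (fun τ : ℝ => U0 (lam t τ) (τ • x))
      (Complex.I * t * U1 (lam t τ) (τ • x) + Complex.I * Nx (lam t τ) (τ • x) x) τ := by
  have hl : 0 < (lam t τ).re := by rw [lam_re]; exact one_pos
  have key : Integrable (fun ξ : EuclideanSpace ℝ (Fin d) => ((‖ξ‖⁻¹ : ℝ) : ℂ) *
      ((Complex.I * ((t * ‖ξ‖ + inner ℝ x ξ : ℝ) : ℂ)) * Complex.exp (A (lam t τ) (τ • x) ξ))) ∧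
      HasDerivAt (fun τ : ℝ => U0 (lam t τ) (τ • x))
      (∫ ξ : EuclideanSpace ℝ (Fin d), ((‖ξ‖⁻¹ : ℝ) : ℂ) *
        ((Complex.I * ((t * ‖ξ‖ + inner ℝ x ξ : ℝ) : ℂ)) *
          Complex.exp (A (lam t τ) (τ • x) ξ))) τ := by
    refine hasDerivAt_integral_of_dominated_loc_of_deriv_le
      (F := fun (τ : ℝ) (ξ : EuclideanSpace ℝ (Fin d)) =>
        ((‖ξ‖⁻¹ : ℝ) : ℂ) * Complex.exp (A (lam t τ) (τ • x) ξ))
      (F' := fun (τ : ℝ) (ξ : EuclideanSpace ℝ (Fin d)) =>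
        ((‖ξ‖⁻¹ : ℝ) : ℂ) * ((Complex.I * ((t * ‖ξ‖ + inner ℝ x ξ : ℝ) : ℂ)) *
          Complex.exp (A (lam t τ) (τ • x) ξ)))
      (bound := fun ξ => (|t| + ‖x‖) * Real.exp (-1 * ‖ξ‖)) (univ_mem) ?_ ?_ ?_ ?_ ?_ ?_
    · refine Eventually.of_forall fun τ' => ?_
      exact (int0 hd (by rw [lam_re]; exact one_pos) _).aestronglyMeasurable
    · exact int0 hd hl _
    · refine AEStronglyMeasurable.mul ?_ (AEStronglyMeasurable.mul ?_ ?_)
      · exact Measurable.aestronglyMeasurable (by fun_prop)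
      · exact Measurable.aestronglyMeasurable (by fun_prop)
      · exact (Complex.continuous_exp.comp (A_continuous _ _)).aestronglyMeasurable
    · filter_upwards [ae_ne_zero hd] with ξ hξ τ' _
      have h0 : 0 < ‖ξ‖ := norm_pos_iff.mpr hξ
      rw [norm_mul, norm_mul, norm_mul, Complex.norm_I, one_mul, Complex.norm_real,
        Complex.norm_real, Complex.norm_exp, A_re, lam_re]
      rw [Real.norm_eq_abs, abs_of_pos (by positivity : (0:ℝ) < ‖ξ‖⁻¹), Real.norm_eq_abs]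
      have h1 : |t * ‖ξ‖ + inner ℝ x ξ| ≤ (|t| + ‖x‖) * ‖ξ‖ := by
        refine (abs_add_le _ _).trans ?_
        rw [abs_mul, abs_of_pos h0, add_mul]
        exact add_le_add le_rfl (abs_real_inner_le_norm x ξ)
      have h2 : 0 < Real.exp (-1 * ‖ξ‖) := Real.exp_pos _
      calc ‖ξ‖⁻¹ * (|t * ‖ξ‖ + inner ℝ x ξ| * Real.exp (-1 * ‖ξ‖))
          ≤ ‖ξ‖⁻¹ * (((|t| + ‖x‖) * ‖ξ‖) * Real.exp (-1 * ‖ξ‖)) := by gcongr
        _ = _ := by field_simp
    · exact (integrable_exp0 hd one_pos).const_mul _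
    · refine Eventually.of_forall fun ξ τ' _ => ?_
      have h1 : HasDerivAt (fun τ : ℝ => A (lam t τ) (τ • x) ξ)
          (Complex.I * ((t * ‖ξ‖ + inner ℝ x ξ : ℝ) : ℂ)) τ' := by
        have h2 : (fun τ : ℝ => A (lam t τ) (τ • x) ξ) = fun τ : ℝ =>
            ((-‖ξ‖ : ℝ) : ℂ) + (τ : ℂ) * (Complex.I * ((t * ‖ξ‖ + inner ℝ x ξ : ℝ) : ℂ)) := by
          funext τ
          exact A_lam t τ x ξ
        rw [h2]
        have := ((Complex.ofRealCLM.hasDerivAt (x := τ')).mul_const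
          (Complex.I * ((t * ‖ξ‖ + inner ℝ x ξ : ℝ) : ℂ))).const_add (((-‖ξ‖ : ℝ) : ℂ))
        simpa using this
      have h3 := (h1.cexp).const_mul ((‖ξ‖⁻¹ : ℝ) : ℂ)
      convert! h3 using 1
      ring
  have h2 : ∫ ξ : EuclideanSpace ℝ (Fin d), ((‖ξ‖⁻¹ : ℝ) : ℂ) *
        ((Complex.I * ((t * ‖ξ‖ + inner ℝ x ξ : ℝ) : ℂ)) *
          Complex.exp (A (lam t τ) (τ • x) ξ)) =
      Complex.I * t * U1 (lam t τ) (τ • x) + Complex.I * Nx (lam t τ) (τ • x) x := by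
    unfold U1 Nx
    rw [← integral_const_mul, ← integral_const_mul, ← integral_add
      ((int1 hd hl _).const_mul _) ((intN hd hl _ x).const_mul _)]
    refine integral_congr_ae ?_
    filter_upwards [ae_ne_zero hd] with ξ hξ
    have h0 : (‖ξ‖ : ℂ) ≠ 0 := by exact_mod_cast (norm_pos_iff.mpr hξ).ne'
    rw [real_inner_comm x ξ]
    push_cast
    field_simp
  rw [← h2]
  exact key.2

/-- `n(τ)` -/
theorem normU0 (hd : 2 ≤ d) (t : ℝ) (x : EuclideanSpace ℝ (Fin d)) :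
    ‖U0 (lam t 1) x‖ ^ 2 *
      ((1 - t ^ 2 + ‖x‖ ^ 2) ^ 2 + 4 * t ^ 2) ^ (((d:ℝ) - 1) / 2) =
    ‖U0 (1:ℂ) (0 : EuclideanSpace ℝ (Fin d))‖ ^ 2 := by
  set q : ℝ := ‖x‖ ^ 2 with hq
  have hq0 : 0 ≤ q := by positivity
  set G : ℝ → ℂ := fun τ => U0 (lam t τ) (τ • x) with hG
  set G' : ℝ → ℂ := fun τ =>
    Complex.I * t * U1 (lam t τ) (τ • x) + Complex.I * Nx (lam t τ) (τ • x) x with hG'
  set n : ℝ → ℝ := fun τ => (1 - τ ^ 2 * t ^ 2 + τ ^ 2 * q) ^ 2 + 4 * (τ ^ 2 * t ^ 2) with hn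
  set n' : ℝ → ℝ := fun τ => 2 * (1 - τ ^ 2 * t ^ 2 + τ ^ 2 * q) *
    (-(2 * τ) * t ^ 2 + (2 * τ) * q) + 8 * τ * t ^ 2 with hn'
  have hnpos : ∀ τ, 0 < n τ := by
    intro τ
    simp only [hn]
    rcases eq_or_ne (τ * t) 0 with h | h
    · have h1 : τ ^ 2 * t ^ 2 = 0 := by rw [← mul_pow, h]; ring
      rw [h1]
      nlinarith [mul_nonneg (sq_nonneg τ) hq0]
    · have h1 : 0 < τ ^ 2 * t ^ 2 := by rw [← mul_pow]; positivity
      nlinarith [sq_nonneg (1 - τ ^ 2 * t ^ 2 + τ ^ 2 * q)]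
  have hGd : ∀ τ, HasDerivAt G (G' τ) τ := fun τ => hasDerivAt_G hd t x τ
  have hnd : ∀ τ, HasDerivAt n (n' τ) τ := by
    intro τ
    have h1 : HasDerivAt (fun τ : ℝ => τ ^ 2) (2 * τ) τ := by
      simpa using hasDerivAt_pow 2 τ
    have h2 := (((h1.mul_const (t ^ 2)).const_sub 1).add (h1.mul_const q)).pow 2
    have h3 := h2.add ((h1.mul_const (t ^ 2)).const_mul 4)
    convert! h3 using 1
    simp only [hn', Pi.add_apply, Pi.sub_apply]
    push_cast
    ring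
  -- the key relation
  have hrel : ∀ τ, (inner ℝ (G τ) (G' τ) : ℝ) * n τ = -(((d:ℝ) - 1) / 4) * n' τ * ‖G τ‖ ^ 2 := by
    intro τ
    have hl : 0 < (lam t τ).re := by rw [lam_re]; exact one_pos
    have hl0 := ne_zero_of_re hl
    have h1 := Z_U1 hd hl (τ • x)
    have h2 := T0 hd hl (τ • x) x
    have h3 : (inner ℝ (τ • x) x : ℝ) = τ * q := by
      rw [inner_smul_left, real_inner_self_eq_norm_sq]; simp [hq]
    have h4 : ‖τ • x‖ ^ 2 = τ ^ 2 * q := by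
      rw [norm_smul, mul_pow, Real.norm_eq_abs, sq_abs]
    rw [h3] at h2
    have h5 : Z (lam t τ) (τ • x) * G' τ =
        ((d:ℂ) - 1) * (Complex.I * t * lam t τ - ((τ * q : ℝ) : ℂ)) * G τ := by
      have h6 : lam t τ * (Z (lam t τ) (τ • x) * G' τ) = lam t τ *
          (((d:ℂ) - 1) * (Complex.I * t * lam t τ - ((τ * q : ℝ) : ℂ)) * G τ) := by
        simp only [hG', hG]
        linear_combination (Complex.I * t * lam t τ - ((τ * q : ℝ) : ℂ)) * h1 +
          Complex.I * Z (lam t τ) (τ • x) * h2 +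
          ((τ * q : ℝ) : ℂ) * Z (lam t τ) (τ • x) * U1 (lam t τ) (τ • x) * Complex.I_sq
      exact mul_left_cancel₀ hl0 h6
    have hZre : (Z (lam t τ) (τ • x)).re = 1 - τ ^ 2 * t ^ 2 + τ ^ 2 * q := by
      unfold Z lam
      rw [h4]
      simp [pow_two, Complex.mul_re, Complex.mul_im]
      ring
    have hZim : (Z (lam t τ) (τ • x)).im = -(2 * (τ * t)) := by
      unfold Z lam
      rw [h4]
      simp [pow_two, Complex.mul_re, Complex.mul_im]
      ring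
    have hwre : (Complex.I * t * lam t τ - ((τ * q : ℝ) : ℂ)).re = τ * (t ^ 2 - q) := by
      unfold lam
      simp [Complex.mul_re, Complex.mul_im]
      ring
    have hwim : (Complex.I * t * lam t τ - ((τ * q : ℝ) : ℂ)).im = t := by
      unfold lam
      simp [Complex.mul_re, Complex.mul_im]
    have hre := congrArg Complex.re h5
    have him := congrArg Complex.im h5
    have hdre : ((d:ℂ) - 1).re = (d:ℝ) - 1 := by simp
    have hdim : ((d:ℂ) - 1).im = 0 := by simp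
    rw [Complex.mul_re, hZre, hZim, Complex.mul_re, Complex.mul_re, Complex.mul_im,
      hdre, hdim, hwre, hwim] at hre
    rw [Complex.mul_im, hZre, hZim, Complex.mul_im, Complex.mul_re, Complex.mul_im,
      hdre, hdim, hwre, hwim] at him
    have hin : (inner ℝ (G τ) (G' τ) : ℝ) = (G τ).re * (G' τ).re + (G τ).im * (G' τ).im := by
      rw [Complex.inner]
      simp [Complex.mul_re]
      ring
    have hno : ‖G τ‖ ^ 2 = (G τ).re * (G τ).re + (G τ).im * (G τ).im := by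
      rw [← Complex.normSq_eq_norm_sq, Complex.normSq_apply]
    rw [hin, hno]
    simp only [hn, hn']
    linear_combination
      ((1 - τ ^ 2 * t ^ 2 + τ ^ 2 * q) * (G τ).re + (2 * (τ * t)) * (G τ).im) * hre +
      ((1 - τ ^ 2 * t ^ 2 + τ ^ 2 * q) * (G τ).im - (2 * (τ * t)) * (G τ).re) * him
  set f : ℝ → ℝ := fun τ => ‖G τ‖ ^ 2 * n τ ^ (((d:ℝ) - 1) / 2) with hf
  have hfd : ∀ τ, HasDerivAt f 0 τ := by
    intro τ
    have h1 := (hGd τ).norm_sq
    have h2 := (hnd τ).rpow_const (p := ((d:ℝ) - 1) / 2) (Or.inl (hnpos τ).ne')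
    have h3 := h1.mul h2
    convert! h3 using 1
    have h4 : n τ ^ (((d:ℝ) - 1) / 2) = n τ ^ (((d:ℝ) - 1) / 2 - 1) * n τ := by
      rw [← Real.rpow_add_one (hnpos τ).ne']
      congr 1
      ring
    rw [h4]
    have h5 := hrel τ
    linear_combination (-2 * n τ ^ (((d:ℝ) - 1) / 2 - 1)) * h5
  have hconst := is_const_of_deriv_eq_zero (f := f) (fun τ => (hfd τ).differentiableAt)
    (fun τ => (hfd τ).deriv) 1 0
  simp only [hf, hG, hn, one_smul, zero_smul] at hconst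
  have hlam0 : lam t 0 = 1 := by simp [lam]
  rw [hlam0] at hconst
  norm_num at hconst
  exact hconst

end Pool.Agent.ConeMax
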