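import Mathlib

set_option autoImplicit false
set_option linter.style.haveILetI false

open MeasureTheory Filter Topology Set

namespace Pool.Agent.ConeMax

/-- `N = |(1-it)^2 + q|^2` -/
def Nq (t q : ℝ) : ℝ := (1 - t ^ 2 + q) ^ 2 + 4 * t ^ 2
/-- `w = 1 + t^2 + q` -/
def wq (t q : ℝ) : ℝ := 1 + t ^ 2 + q

theorem wq_le_Nq {t q : ℝ} (hq : 0 ≤ q) : wq t q ≤ Nq t q := by
  unfold wq Nq
  nlinarith [sq_nonneg (t ^ 2 - q), sq_nonneg t]

theorem one_le_wq {t q : ℝ} (hq : 0 ≤ q) : 1 ≤ wq t q := by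
  unfold wq
  nlinarith [sq_nonneg t]

theorem Nq_pos {t q : ℝ} (hq : 0 ≤ q) : 0 < Nq t q :=
  lt_of_lt_of_le one_pos ((one_le_wq hq).trans (wq_le_Nq hq))

theorem one_le_Nq {t q : ℝ} (hq : 0 ≤ q) : 1 ≤ Nq t q := (one_le_wq hq).trans (wq_le_Nq hq)

theorem Nq_factor (t r : ℝ) : Nq t (r ^ 2) = (1 + (t + r) ^ 2) * (1 + (t - r) ^ 2) := by
  unfold Nq
  ring

variable {d : ℕ}

/-- one-variable decay -/
theorem integrable_g {k : ℝ} (hk : 1 / 2 < k) :
    Integrable (fun y : ℝ => (1 + y ^ 2) ^ (-k)) := by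
  have h := integrable_rpow_neg_one_add_norm_sq (E := ℝ) (μ := volume) (r := 2 * k)
    (by simp; linarith)
  refine h.congr (Eventually.of_forall fun y => ?_)
  simp only [Real.norm_eq_abs, sq_abs]
  congr 1
  ring

theorem integrable_f {k : ℝ} (hk : (d:ℝ) + 1 < 2 * k) :
    Integrable (fun x : EuclideanSpace ℝ (Fin d) => (1 + ‖x‖ ^ 2) ^ (1 / 2 - k)) := by
  have h := integrable_rpow_neg_one_add_norm_sq (E := EuclideanSpace ℝ (Fin d)) (μ := volume)
    (r := 2 * k - 1) (by simp; linarith)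
  refine h.congr (Eventually.of_forall fun y => ?_)
  simp only
  congr 1
  ring

theorem integrable_shear {k : ℝ} (hk : (d:ℝ) + 1 < 2 * k) (σ : ℝ) :
    Integrable (fun z : ℝ × EuclideanSpace ℝ (Fin d) =>
      (1 + ‖z.2‖ ^ 2) ^ (1 / 2 - k) * (1 + (z.1 + σ * ‖z.2‖) ^ 2) ^ (-k)) := by
  have hk2 : 1 / 2 < k := by
    have : (0:ℝ) ≤ d := Nat.cast_nonneg d
    linarith
  have hmeas : AEStronglyMeasurable (fun z : ℝ × EuclideanSpace ℝ (Fin d) =>
      (1 + ‖z.2‖ ^ 2) ^ (1 / 2 - k) * (1 + (z.1 + σ * ‖z.2‖) ^ 2) ^ (-k)) volume := by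
    apply Measurable.aestronglyMeasurable
    fun_prop
  rw [Measure.volume_eq_prod] at hmeas ⊢
  rw [integrable_prod_iff' hmeas]
  constructor
  · refine Eventually.of_forall fun x => ?_
    exact ((integrable_g hk2).comp_add_right (σ * ‖x‖)).const_mul ((1 + ‖x‖ ^ 2) ^ (1 / 2 - k))
  · have h1 : (fun x : EuclideanSpace ℝ (Fin d) => ∫ t : ℝ,
        ‖(1 + ‖x‖ ^ 2) ^ (1 / 2 - k) * (1 + (t + σ * ‖x‖) ^ 2) ^ (-k)‖) =
        fun x => (1 + ‖x‖ ^ 2) ^ (1 / 2 - k) * ∫ t : ℝ, (1 + t ^ 2) ^ (-k) := by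
      funext x
      rw [← integral_add_right_eq_self (fun t : ℝ => (1 + t ^ 2) ^ (-k)) (σ * ‖x‖),
        ← integral_const_mul]
      refine integral_congr_ae (Eventually.of_forall fun t => ?_)
      simp only [norm_mul, Real.norm_eq_abs]
      rw [abs_of_nonneg (by positivity), abs_of_nonneg (by positivity)]
    rw [h1]
    exact (integrable_f hk).mul_const _

/-- the majorant is integrable -/
theorem integrable_W {k : ℝ} (hk : (d:ℝ) + 1 < 2 * k) :
    Integrable (fun z : ℝ × EuclideanSpace ℝ (Fin d) =>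
      √(wq z.1 (‖z.2‖ ^ 2)) * Nq z.1 (‖z.2‖ ^ 2) ^ (-k)) := by
  have h0d : (0:ℝ) ≤ d := Nat.cast_nonneg d
  refine ((integrable_shear hk 1).add (integrable_shear hk (-1))).mono' ?_ ?_
  · apply Measurable.aestronglyMeasurable
    unfold wq Nq
    fun_prop
  · refine Eventually.of_forall fun z => ?_
    obtain ⟨t, x⟩ := z
    simp only [Pi.add_apply]
    set r := ‖x‖ with hr
    have hr0 : 0 ≤ r := norm_nonneg x
    rw [Real.norm_eq_abs, abs_of_nonneg (mul_nonneg (Real.sqrt_nonneg _)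
      (Real.rpow_nonneg (Nq_pos (sq_nonneg r)).le _))]
    rw [Nq_factor]
    have hA : 0 < 1 + (t + r) ^ 2 := by positivity
    have hB : 0 < 1 + (t - r) ^ 2 := by positivity
    rw [Real.mul_rpow hA.le hB.le]
    have hw0 : 0 < wq t (r ^ 2) := lt_of_lt_of_le one_pos (one_le_wq (sq_nonneg r))
    have e1 : t + -1 * r = t - r := by ring
    have e2 : t + 1 * r = t + r := by ring
    rw [e1, e2]
    rcases le_total 0 t with ht | ht
    · -- A is the large factor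
      have h1 : wq t (r ^ 2) ≤ 1 + (t + r) ^ 2 := by
        unfold wq; nlinarith [mul_nonneg ht hr0]
      have h2 : 1 + r ^ 2 ≤ 1 + (t + r) ^ 2 := by nlinarith [mul_nonneg ht hr0]
      have h3 : √(wq t (r ^ 2)) * (1 + (t + r) ^ 2) ^ (-k) ≤ (1 + r ^ 2) ^ (1 / 2 - k) := by
        calc √(wq t (r ^ 2)) * (1 + (t + r) ^ 2) ^ (-k)
            ≤ √(1 + (t + r) ^ 2) * (1 + (t + r) ^ 2) ^ (-k) := by
              gcongr
          _ = (1 + (t + r) ^ 2) ^ (1 / 2 - k) := by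
              rw [Real.sqrt_eq_rpow, ← Real.rpow_add hA]
              congr 1
          _ ≤ (1 + r ^ 2) ^ (1 / 2 - k) :=
              Real.rpow_le_rpow_of_nonpos (by positivity) h2 (by linarith)
      calc √(wq t (r ^ 2)) * ((1 + (t + r) ^ 2) ^ (-k) * (1 + (t - r) ^ 2) ^ (-k))
          = (√(wq t (r ^ 2)) * (1 + (t + r) ^ 2) ^ (-k)) * (1 + (t - r) ^ 2) ^ (-k) := by ring
        _ ≤ (1 + r ^ 2) ^ (1 / 2 - k) * (1 + (t - r) ^ 2) ^ (-k) := by gcongr
        _ ≤ _ := le_add_of_nonneg_left (by positivity)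
    · have h1 : wq t (r ^ 2) ≤ 1 + (t - r) ^ 2 := by
        unfold wq; nlinarith [mul_nonneg (neg_nonneg.mpr ht) hr0]
      have h2 : 1 + r ^ 2 ≤ 1 + (t - r) ^ 2 := by
        nlinarith [mul_nonneg (neg_nonneg.mpr ht) hr0]
      have h3 : √(wq t (r ^ 2)) * (1 + (t - r) ^ 2) ^ (-k) ≤ (1 + r ^ 2) ^ (1 / 2 - k) := by
        calc √(wq t (r ^ 2)) * (1 + (t - r) ^ 2) ^ (-k)
            ≤ √(1 + (t - r) ^ 2) * (1 + (t - r) ^ 2) ^ (-k) := by
              gcongr
          _ = (1 + (t - r) ^ 2) ^ (1 / 2 - k) := by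
              rw [Real.sqrt_eq_rpow, ← Real.rpow_add hB]
              congr 1
          _ ≤ (1 + r ^ 2) ^ (1 / 2 - k) :=
              Real.rpow_le_rpow_of_nonpos (by positivity) h2 (by linarith)
      calc √(wq t (r ^ 2)) * ((1 + (t + r) ^ 2) ^ (-k) * (1 + (t - r) ^ 2) ^ (-k))
          = (√(wq t (r ^ 2)) * (1 + (t - r) ^ 2) ^ (-k)) * (1 + (t + r) ^ 2) ^ (-k) := by ring
        _ ≤ (1 + r ^ 2) ^ (1 / 2 - k) * (1 + (t + r) ^ 2) ^ (-k) := by gcongr
        _ ≤ _ := le_add_of_nonneg_right (by positivity)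

theorem haar_inst : (volume : Measure (ℝ × EuclideanSpace ℝ (Fin d))).IsAddHaarMeasure := by
  rw [Measure.volume_eq_prod]
  infer_instance

/-- integration by parts in `t` -/
theorem ibp_t (V V' : ℝ → ℝ → ℝ)
    (hder : ∀ t q, 0 ≤ q → HasDerivAt (fun t => V t q) (V' t q) t)
    (hi : Integrable (fun z : ℝ × EuclideanSpace ℝ (Fin d) => V z.1 (‖z.2‖ ^ 2)))
    (hi' : Integrable (fun z : ℝ × EuclideanSpace ℝ (Fin d) => V' z.1 (‖z.2‖ ^ 2))) :
    ∫ z : ℝ × EuclideanSpace ℝ (Fin d), V' z.1 (‖z.2‖ ^ 2) = 0 := by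
  haveI := haar_inst (d := d)
  have h := integral_bilinear_hasLineDerivAt_right_eq_neg_left_of_integrable
    (μ := (volume : Measure (ℝ × EuclideanSpace ℝ (Fin d))))
    (f := fun z : ℝ × EuclideanSpace ℝ (Fin d) => V z.1 (‖z.2‖ ^ 2))
    (f' := fun z => V' z.1 (‖z.2‖ ^ 2))
    (g := fun _ => (1:ℝ)) (g' := fun _ => (0:ℝ))
    (v := ((1:ℝ), (0 : EuclideanSpace ℝ (Fin d)))) (B := ContinuousLinearMap.mul ℝ ℝ)
    (by simpa using hi') (by simp) (by simpa using hi)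
    (by
      intro z _
      have h1 := hder z.1 (‖z.2‖ ^ 2) (by positivity)
      unfold HasLineDerivAt
      have h2 : HasDerivAt (fun τ : ℝ => z.1 + τ) 1 0 := by
        simpa using (hasDerivAt_id (0:ℝ)).const_add z.1
      have h3 := HasDerivAt.comp (0:ℝ) (h₂ := fun t => V t (‖z.2‖ ^ 2))
        (h := fun τ : ℝ => z.1 + τ) (by simpa using h1) h2
      simpa [Function.comp_def] using h3)
    (by
      intro z _
      unfold HasLineDerivAt
      exact hasDerivAt_const _ _)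
  simpa using h.symm

/-- integration by parts in `x` -/
theorem ibp_x (G G' : ℝ → ℝ → ℝ)
    (hder : ∀ t q, 0 ≤ q → HasDerivAt (fun q => G t q) (G' t q) q)
    (hi : ∀ j : Fin d, Integrable (fun z : ℝ × EuclideanSpace ℝ (Fin d) =>
      z.2 j * G z.1 (‖z.2‖ ^ 2)))
    (hi' : ∀ j : Fin d, Integrable (fun z : ℝ × EuclideanSpace ℝ (Fin d) =>
      G z.1 (‖z.2‖ ^ 2) + 2 * (z.2 j) ^ 2 * G' z.1 (‖z.2‖ ^ 2))) :
    ∫ z : ℝ × EuclideanSpace ℝ (Fin d),
      (d * G z.1 (‖z.2‖ ^ 2) + 2 * ‖z.2‖ ^ 2 * G' z.1 (‖z.2‖ ^ 2)) = 0 := by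
  have hj : ∀ j : Fin d, ∫ z : ℝ × EuclideanSpace ℝ (Fin d),
      (G z.1 (‖z.2‖ ^ 2) + 2 * (z.2 j) ^ 2 * G' z.1 (‖z.2‖ ^ 2)) = 0 := by
    intro j
    haveI := haar_inst (d := d)
    have h := integral_bilinear_hasLineDerivAt_right_eq_neg_left_of_integrable
      (μ := (volume : Measure (ℝ × EuclideanSpace ℝ (Fin d))))
      (f := fun z : ℝ × EuclideanSpace ℝ (Fin d) => z.2 j * G z.1 (‖z.2‖ ^ 2))
      (f' := fun z => G z.1 (‖z.2‖ ^ 2) + 2 * (z.2 j) ^ 2 * G' z.1 (‖z.2‖ ^ 2))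
      (g := fun _ => (1:ℝ)) (g' := fun _ => (0:ℝ))
      (v := ((0:ℝ), (EuclideanSpace.single j (1:ℝ) : EuclideanSpace ℝ (Fin d))))
      (B := ContinuousLinearMap.mul ℝ ℝ)
      (by simpa using hi' j) (by simp) (by simpa using hi j)
      (by
        intro z _
        obtain ⟨t, x⟩ := z
        have h1 := hder t (‖x‖ ^ 2) (by positivity)
        unfold HasLineDerivAt
        have hq : ∀ τ : ℝ, ‖x + τ • (EuclideanSpace.single j (1:ℝ) : EuclideanSpace ℝ (Fin d))‖ ^ 2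
            = ‖x‖ ^ 2 + 2 * τ * x j + τ ^ 2 := by
          intro τ
          rw [norm_add_sq_real, inner_smul_right, norm_smul, EuclideanSpace.inner_single_right]
          simp
          ring
        have hc : ∀ τ : ℝ, (x + τ • (EuclideanSpace.single j (1:ℝ) :
            EuclideanSpace ℝ (Fin d))) j = x j + τ := by
          intro τ
          simp
        have h2 : HasDerivAt (fun τ : ℝ => ‖x‖ ^ 2 + 2 * τ * x j + τ ^ 2) (2 * x j) 0 := by
          have h3 := (((hasDerivAt_id (0:ℝ)).const_mul (2 * x j)).const_add (‖x‖ ^ 2)).add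
            (hasDerivAt_pow 2 (0:ℝ))
          convert! h3 using 1
          · funext τ; simp; ring
          · simp
        have h4 : HasDerivAt (fun τ : ℝ => G t (‖x‖ ^ 2 + 2 * τ * x j + τ ^ 2))
            (G' t (‖x‖ ^ 2) * (2 * x j)) 0 := by
          exact HasDerivAt.comp (0:ℝ) (h₂ := fun q => G t q)
            (h := fun τ : ℝ => ‖x‖ ^ 2 + 2 * τ * x j + τ ^ 2) (by simpa using h1) h2
        have h5 : HasDerivAt (fun τ : ℝ => x j + τ) 1 0 := by
          simpa using (hasDerivAt_id (0:ℝ)).const_add (x j)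
        have h6 := h5.mul h4
        convert! h6 using 1
        · funext τ
          simp only [Prod.mk_add_mk, Prod.smul_mk, smul_zero, add_zero, Pi.mul_apply]
          rw [hc, hq]
        · simp
          ring)
      (by
        intro z _
        unfold HasLineDerivAt
        exact hasDerivAt_const _ _)
    simpa using h.symm
  have hsum : ∫ z : ℝ × EuclideanSpace ℝ (Fin d), ∑ j : Fin d,
      (G z.1 (‖z.2‖ ^ 2) + 2 * (z.2 j) ^ 2 * G' z.1 (‖z.2‖ ^ 2)) = 0 := by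
    rw [integral_finsetSum _ (fun j _ => hi' j)]
    exact Finset.sum_eq_zero fun j _ => hj j
  rw [← hsum]
  refine integral_congr_ae (Eventually.of_forall fun z => ?_)
  simp only
  rw [Finset.sum_add_distrib, Finset.sum_const, Finset.card_univ, Fintype.card_fin, nsmul_eq_mul,
    ← Finset.sum_mul, ← Finset.mul_sum, EuclideanSpace.real_norm_sq_eq]

end Pool.Agent.ConeMax
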